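import Pool.Agent.Lib.MP_1d1228_co.PartC

/-!
Random bits read off from a table at random places.
-/

open MeasureTheory ProbabilityTheory Set Function MeasurableSpace Filter
open scoped ENNReal

namespace Pool.Agent.Lib.MP_1d1228_co

/-- The fair coin on `Prop`. -/
noncomputable def coin : Measure Prop :=
  (2⁻¹ : ℝ≥0∞) • Measure.dirac True + (2⁻¹ : ℝ≥0∞) • Measure.dirac False

instance : IsProbabilityMeasure coin := by
  constructor
  simp [coin, ENNReal.inv_two_add_inv_two]

lemma coin_map_not : coin.map Not = coin := by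
  have hm : Measurable Not := measurable_from_top
  ext A hA
  rw [Measure.map_apply hm hA]
  simp only [coin, Measure.coe_add, Measure.coe_smul, Pi.add_apply, Pi.smul_apply, smul_eq_mul]
  rw [Measure.dirac_apply' _ (hm hA), Measure.dirac_apply' _ (hm hA), Measure.dirac_apply' _ hA,
    Measure.dirac_apply' _ hA]
  rw [add_comm]
  by_cases hT : True ∈ A <;> by_cases hF : False ∈ A <;> simp [indicator, hT, hF]

lemma coin_singleton (p : Prop) : coin {p} = 2⁻¹ := by
  simp only [coin, Measure.coe_add, Measure.coe_smul, Pi.add_apply, Pi.smul_apply, smul_eq_mul]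
  rw [Measure.dirac_apply' _ (measurableSet_singleton p),
    Measure.dirac_apply' _ (measurableSet_singleton p)]
  by_cases hp : p <;> simp [indicator, hp]

instance : NullSingletonClass (Measure.infinitePi (fun _ : ℕ => coin)) := by
  constructor
  intro b
  have hle : ∀ n : ℕ, Measure.infinitePi (fun _ : ℕ => coin) {b} ≤ (2⁻¹ : ℝ≥0∞) ^ n := by
    intro n
    have h1 := Measure.infinitePi_pi (fun _ : ℕ => coin) (s := Finset.range n) (t := fun i => {b i})
      (fun i _ => measurableSet_singleton _)
    simp only [coin_singleton, Finset.prod_const, Finset.card_range] at h1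
    rw [← h1]
    refine measure_mono ?_
    rintro x rfl i _
    rfl
  have hlim : Tendsto (fun n : ℕ => (2⁻¹ : ℝ≥0∞) ^ n) atTop (nhds 0) :=
    ENNReal.tendsto_pow_atTop_nhds_zero_of_lt_one (by
      rw [ENNReal.inv_lt_one]; exact ENNReal.one_lt_two)
  exact le_antisymm (ge_of_tendsto' hlim hle) (zero_le)

lemma floor_ne {x y : ℝ} (hxy : x ≠ y) :
    ∀ᶠ r : ℕ in atTop, ⌊(r : ℝ) * x⌋ ≠ ⌊(r : ℝ) * y⌋ := by
  have hpos : 0 < |x - y| := abs_pos.2 (sub_ne_zero.2 hxy)
  obtain ⟨n, hn⟩ := exists_nat_gt (1 / |x - y|)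
  filter_upwards [eventually_ge_atTop n] with r hr h
  have h1 := Int.abs_sub_lt_one_of_floor_eq_floor h
  rw [← mul_sub, abs_mul, Nat.abs_cast] at h1
  have h2 : (n : ℝ) ≤ r := by exact_mod_cast hr
  have h3 : 1 < (n : ℝ) * |x - y| := by
    rw [div_lt_iff₀ hpos] at hn; exact hn
  nlinarith

open Classical in
/-- Flipping the entries in `R`. -/
noncomputable def flipOn {K : Type*} (R : Set K) (b : K → Prop) : K → Prop :=
  fun k => if k ∈ R then ¬ b k else b k

lemma measurable_flipOn {K : Type*} (R : Set K) : Measurable (flipOn R) := by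
  refine measurable_pi_lambda _ fun k => ?_
  have hnot : Measurable Not := measurable_from_top
  by_cases h : k ∈ R
  · simp only [flipOn, h, if_true]
    exact hnot.comp (measurable_pi_apply k)
  · simp only [flipOn, h, if_false]
    exact measurable_pi_apply k

lemma map_flipOn {K : Type*} (R : Set K) :
    (Measure.infinitePi (fun _ : K => coin)).map (flipOn R) =
      Measure.infinitePi (fun _ : K => coin) := by
  classical
  have := Measure.infinitePi_map_pi (fun _ : K => coin)
    (f := fun k p => if k ∈ R then ¬ p else p) (fun k => measurable_from_top)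
  unfold flipOn
  have h2 : (fun (b : K → Prop) (k : K) => if k ∈ R then ¬ b k else b k) =
      (fun (b : K → Prop) (k : K) => (fun k p => if k ∈ R then ¬ p else p) k (b k)) := rfl
  have h3 : (Measure.infinitePi (fun _ : K => coin)).map
      (fun (b : K → Prop) (k : K) => if k ∈ R then ¬ b k else b k) =
      Measure.infinitePi (fun k : K => coin.map (fun p => if k ∈ R then ¬ p else p)) := this
  convert h3 using 2
  funext k
  by_cases h : k ∈ R
  · simp only [h, if_true]; exact coin_map_not.symm
  · simp only [h, if_false]; exact Measure.map_id.symm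

/-- A null set stays null if finitely many entries may be read off at arbitrary places. -/
lemma null_of_null {K K' : Type*} (κ κ' : K → K') (R : Set K) (hR : R.Finite)
    (hagree : ∀ k ∉ R, κ k = κ' k) (hκ' : Injective κ') (Q : Set (K → Prop))
    (hQ : MeasurableSet Q) (h0 : Measure.infinitePi (fun _ : K => coin) Q = 0) :
    Measure.infinitePi (fun _ : K' => coin) {z : K' → Prop | (fun k => z (κ k)) ∈ Q} = 0 := by
  have hsub : {z : K' → Prop | (fun k => z (κ k)) ∈ Q} ⊆
      ⋃ R' ∈ 𝒫 R, {z : K' → Prop | flipOn R' (fun k => z (κ' k)) ∈ Q} := by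
    intro z hz
    refine mem_biUnion (x := {k | k ∈ R ∧ ¬ (z (κ k) ↔ z (κ' k))}) (fun k hk => hk.1) ?_
    have : flipOn {k | k ∈ R ∧ ¬ (z (κ k) ↔ z (κ' k))} (fun k => z (κ' k)) =
        fun k => z (κ k) := by
      funext k
      unfold flipOn
      by_cases hk : k ∈ R
      · by_cases h2 : (z (κ k) ↔ z (κ' k))
        · simp [hk, h2]
        · simp only [mem_ofPred_eq, hk, h2, not_false_eq_true, and_self, if_true]
          refine propext ?_
          tauto
      · simp [hk, hagree k hk]
    simp only [mem_ofPred_eq]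
    rw [this]
    exact hz
  refine measure_mono_null hsub ?_
  have hc : (𝒫 R).Countable := hR.finite_subsets.countable
  rw [measure_biUnion_null_iff hc]
  intro R' _
  have hm : Measurable (fun (z : K' → Prop) (k : K) => z (κ' k)) :=
    measurable_pi_lambda _ fun _ => measurable_pi_apply _
  have h1 : {z : K' → Prop | flipOn R' (fun k => z (κ' k)) ∈ Q} =
      (fun (z : K' → Prop) (k : K) => z (κ' k)) ⁻¹' (flipOn R' ⁻¹' Q) := rfl
  rw [h1, ← Measure.map_apply hm (measurable_flipOn R' hQ),
    map_comp_inj coin κ' hκ', ← Measure.map_apply (measurable_flipOn R') hQ, map_flipOn, h0]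

/-- The places of the table. -/
abbrev Place : Type := ℕ × Finset ℤ

/-- The bits of the coordinate `A`, read off from the table `z` of the vertex of `A` with the
smallest label, at the places given by the rounded labels. -/
def bitsOf {V : Type} (u : V → ℝ) (z : V → Place → Prop) (A : NF V) : ℕ → Prop :=
  fun r => ∃ i ∈ A.1, (∀ j ∈ A.1, u i ≤ u j) ∧ z i (r, A.1.image (fun j => ⌊(r : ℝ) * u j⌋))

lemma bitsOf_push {V W : Type} [DecidableEq W] (α : V → W) (u : W → ℝ) (z : W → Place → Prop)
    (A : NF V) : bitsOf u z (push α A) = bitsOf (u ∘ α) (z ∘ α) A := by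
  funext r
  refine propext ?_
  simp only [bitsOf, push, Finset.mem_image, Finset.image_image, comp_def]
  constructor
  · rintro ⟨i, ⟨a, ha, rfl⟩, hmin, hz⟩
    exact ⟨a, ha, fun j hj => hmin _ ⟨j, hj, rfl⟩, hz⟩
  · rintro ⟨a, ha, hmin, hz⟩
    exact ⟨α a, ⟨a, ha, rfl⟩, fun j ⟨b, hb, hbj⟩ => hbj ▸ hmin b hb, hz⟩

lemma measurable_bitsOf {V : Type} (A : NF V) :
    Measurable (fun p : (V → ℝ) × (V → Place → Prop) => bitsOf p.1 p.2 A) := by
  refine measurable_pi_lambda _ fun r => ?_
  refine measurableSet_setOfPred.1 ?_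
  have hset : {p : (V → ℝ) × (V → Place → Prop) | bitsOf p.1 p.2 A r} =
      ⋃ i ∈ A.1, ((⋂ j ∈ A.1, {p : (V → ℝ) × (V → Place → Prop) | p.1 i ≤ p.1 j}) ∩
        ⋃ S : Finset ℤ, ({p : (V → ℝ) × (V → Place → Prop) |
          A.1.image (fun j => ⌊(r : ℝ) * p.1 j⌋) = S} ∩
          {p : (V → ℝ) × (V → Place → Prop) | p.2 i (r, S)})) := by
    ext p
    simp only [bitsOf, mem_ofPred_eq, mem_iUnion, mem_inter_iff, mem_iInter]
    constructor
    · rintro ⟨i, hi, h1, h2⟩
      exact ⟨i, hi, h1, _, rfl, h2⟩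
    · rintro ⟨i, hi, h1, S, rfl, h2⟩
      exact ⟨i, hi, h1, h2⟩
  rw [hset]
  have hfl : ∀ j, Measurable (fun p : (V → ℝ) × (V → Place → Prop) => ⌊(r : ℝ) * p.1 j⌋) := by
    intro j
    exact Int.measurable_floor.comp
      ((measurable_const).mul ((measurable_pi_apply j).comp measurable_fst))
  refine Finset.measurableSet_biUnion _ fun i _ => MeasurableSet.inter
    (Finset.measurableSet_biInter _ fun j _ => ?_) (MeasurableSet.iUnion fun S =>
      MeasurableSet.inter ?_ ?_)
  · exact measurableSet_le ((measurable_pi_apply i).comp measurable_fst)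
      ((measurable_pi_apply j).comp measurable_fst)
  · have : {p : (V → ℝ) × (V → Place → Prop) |
          A.1.image (fun j => ⌊(r : ℝ) * p.1 j⌋) = S} =
        (⋂ j ∈ A.1, {p : (V → ℝ) × (V → Place → Prop) | ⌊(r : ℝ) * p.1 j⌋ ∈ S}) ∩
        (⋂ s ∈ S, ⋃ j ∈ A.1, {p : (V → ℝ) × (V → Place → Prop) | ⌊(r : ℝ) * p.1 j⌋ = s}) := by
      ext p
      simp only [mem_ofPred_eq, mem_inter_iff, mem_iInter, mem_iUnion]
      constructor
      · rintro rfl
        refine ⟨fun j hj => Finset.mem_image_of_mem _ hj, fun s hs => ?_⟩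
        obtain ⟨j, hj, rfl⟩ := Finset.mem_image.1 hs
        exact ⟨j, hj, rfl⟩
      · rintro ⟨h1, h2⟩
        ext s
        rw [Finset.mem_image]
        constructor
        · rintro ⟨j, hj, rfl⟩; exact h1 j hj
        · intro hs
          obtain ⟨j, hj, h⟩ := h2 s hs
          exact ⟨j, hj, h⟩
    rw [this]
    refine MeasurableSet.inter (Finset.measurableSet_biInter _ fun j _ => ?_)
      (Finset.measurableSet_biInter _ fun s _ => Finset.measurableSet_biUnion _ fun j _ => ?_)
    · exact hfl j (S.measurableSet)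
    · exact hfl j (measurableSet_singleton s)
  · exact measurableSet_setOfPred.2 ((measurable_pi_apply (r, S)).comp
      ((measurable_pi_apply i).comp measurable_snd))

lemma null_bits {ι : Type} [Finite ι] (a : ι → NF ℕ+) (ha : Injective a) (u : ℕ+ → ℝ)
    (hu : Injective u) (Q : Set (ι × ℕ → Prop)) (hQ : MeasurableSet Q)
    (h0 : Measure.infinitePi (fun _ : ι × ℕ => coin) Q = 0) :
    Measure.infinitePi (fun _ : ℕ+ × Place => coin) {z : ℕ+ × Place → Prop |
      (fun p : ι × ℕ => bitsOf u (fun v q => z (v, q)) (a p.1) p.2) ∈ Q} = 0 := by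
  classical
  -- the vertex of smallest label
  have hmin : ∀ i : ι, ∃ v ∈ (a i).1, ∀ w ∈ (a i).1, u v ≤ u w := fun i =>
    Finset.exists_min_image _ u (a i).2
  choose m hm1 hm2 using hmin
  -- the threshold
  have hev : ∀ᶠ r : ℕ in atTop, ∀ i i' : ι, ∀ v ∈ (a i).1, ∀ w ∈ (a i').1, v ≠ w →
      ⌊(r : ℝ) * u v⌋ ≠ ⌊(r : ℝ) * u w⌋ := by
    rw [eventually_all]; intro i
    rw [eventually_all]; intro i'
    rw [Finset.eventually_all]; intro v _
    rw [Finset.eventually_all]; intro w _
    by_cases hvw : v = w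
    · exact Eventually.of_forall fun r h => absurd hvw h
    · filter_upwards [floor_ne (fun h => hvw (hu h))] with r hr _
      exact hr
  obtain ⟨r0, hr0⟩ := eventually_atTop.1 hev
  obtain ⟨enc, henc⟩ := Countable.exists_injective_nat ι
  let κ : ι × ℕ → ℕ+ × Place := fun p => (m p.1, (p.2, (a p.1).1.image (fun j => ⌊(p.2 : ℝ) * u j⌋)))
  let κ' : ι × ℕ → ℕ+ × Place := fun p => if p.2 < r0 then (1, (p.2, {(enc p.1 : ℤ)})) else κ p
  have hbits : ∀ z : ℕ+ × Place → Prop,
      (fun p : ι × ℕ => bitsOf u (fun v q => z (v, q)) (a p.1) p.2) = fun p => z (κ p) := by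
    intro z
    funext p
    refine propext ?_
    simp only [bitsOf, κ]
    constructor
    · rintro ⟨i, hi, hmin, hz⟩
      have : i = m p.1 := hu (le_antisymm (hmin _ (hm1 _)) (hm2 _ _ hi))
      rw [← this]; exact hz
    · intro hz
      exact ⟨m p.1, hm1 _, hm2 _, hz⟩
  simp only [hbits]
  refine null_of_null κ κ' {p : ι × ℕ | p.2 < r0} ?_ ?_ ?_ Q hQ h0
  · have : {p : ι × ℕ | p.2 < r0} = (univ : Set ι) ×ˢ (Set.Iio r0) := by
      ext p; simp
    rw [this]
    exact Set.finite_univ.prod (Set.finite_Iio r0)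
  · intro p hp
    simp only [mem_ofPred_eq] at hp
    simp [κ', hp]
  · rintro ⟨i, r⟩ ⟨i', r'⟩ h
    have hr : r = r' := by
      by_cases h1 : r < r0 <;> by_cases h2 : r' < r0 <;> simp [κ', κ, h1, h2] at h <;> tauto
    subst hr
    by_cases h1 : r < r0
    · simp [κ', h1] at h
      rw [henc h]
    · simp only [κ', h1, if_false, κ, Prod.mk.injEq, true_and] at h
      have hinj := hr0 r (not_lt.1 h1)
      have : a i = a i' := by
        apply Subtype.ext
        ext v
        constructor
        · intro hv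
          have : ⌊(r : ℝ) * u v⌋ ∈ (a i').1.image (fun j => ⌊(r : ℝ) * u j⌋) := by
            rw [← h.2]; exact Finset.mem_image_of_mem _ hv
          obtain ⟨w, hw, hwv⟩ := Finset.mem_image.1 this
          by_contra hne
          have hvw : v ≠ w := fun e => hne (e ▸ hw)
          exact hinj i i' v hv w hw hvw hwv.symm
        · intro hv
          have : ⌊(r : ℝ) * u v⌋ ∈ (a i).1.image (fun j => ⌊(r : ℝ) * u j⌋) := by
            rw [h.2]; exact Finset.mem_image_of_mem _ hv
          obtain ⟨w, hw, hwv⟩ := Finset.mem_image.1 this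
          by_contra hne
          have hvw : w ≠ v := fun e => hne (e ▸ hw)
          exact hinj i i' w hw v hv hvw hwv
      rw [ha this]

end Pool.Agent.Lib.MP_1d1228_co
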