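import Mathlib

/-!
Definitions for MP_1d1228_co: Euclidean structures, exchangeable arrays, limit objects,
compatibility and weak compatibility with a set of coordinate levels.
-/

open MeasureTheory ProbabilityTheory

namespace Pool.Agent.Lib.MP_1d1228_co

/-- `r(V)`: the nonempty finite subsets of `V`. -/
abbrev NF (V : Type) : Type := {A : Finset V // A.Nonempty}

/-- The level `|A|` of a coordinate `A ∈ r(V)`, a positive integer. -/
def lev {V : Type} (A : NF V) : ℕ+ := ⟨A.1.card, Finset.card_pos.2 A.2⟩

/-- The image `α(A)` of `A ∈ r(V)` under a map `α : V → W`. -/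
def push {V W : Type} [DecidableEq W] (α : V → W) (A : NF V) : NF W :=
  ⟨A.1.image α, A.2.image α⟩

/-- The space of all `L`-structures on `ℕ₊` for a relational language `L`: such a structure is
the predicate telling which atoms `P(α)` hold. It carries the product σ-algebra. -/
abbrev Str (L : FirstOrder.Language.{0, 0}) : Type :=
  (Σ k : ℕ, L.Relations k × (Fin k → ℕ+)) → Prop

/-- An element of `Str L` read as a first-order structure on `ℕ₊`. -/
@[reducible] def Str.toStructure {L : FirstOrder.Language.{0, 0}} [L.IsRelational] (M : Str L) :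
    L.Structure ℕ+ where
  funMap f := isEmptyElim f
  RelMap {k} P α := M ⟨k, P, α⟩

/-- `M` is a model of the theory `T`. -/
def Str.Models {L : FirstOrder.Language.{0, 0}} [L.IsRelational] (M : Str L)
    (T : L.Theory) : Prop :=
  @FirstOrder.Language.Theory.Model L ℕ+ M.toStructure T

/-- A Euclidean structure on `L` over `X`: a measurable peon in `X^{r(k)}` for every relation
symbol of arity `k`. -/
structure Euclidean (L : FirstOrder.Language.{0, 0}) (X : Type*) [MeasurableSpace X] where
  peon : ∀ {k : ℕ}, L.Relations k → Set (NF (Fin k) → X)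
  measurableSet_peon : ∀ {k : ℕ} (P : L.Relations k), MeasurableSet (peon P)

section

variable {L : FirstOrder.Language.{0, 0}} {X : Type*} [MeasurableSpace X]

/-- The exchangeable array of `N`, as a function of the family `θ`: `P(α)` holds iff `α` is
injective and `(θ_{α(A)})_{A ∈ r(k)}` lies in the peon of `P`. -/
def Euclidean.array (N : Euclidean L X) (θ : NF ℕ+ → X) : Str L :=
  fun a => Function.Injective a.2.2 ∧ (fun A => θ (push a.2.2 A)) ∈ N.peon a.2.1

/-- The law of the i.i.d. family `θ = (θ_A)_{A ∈ r(ℕ₊)}` with `θ_A ~ μ`. -/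
noncomputable def iid (μ : Measure X) : Measure (NF ℕ+ → X) :=
  Measure.infinitePi fun _ => μ

/-- `N` is a `T`-on: its array is almost surely a model of `T`. -/
def Euclidean.IsOn [L.IsRelational] (N : Euclidean L X) (μ : Measure X) (T : L.Theory) : Prop :=
  ∀ᵐ θ ∂(iid μ), (N.array θ).Models T

/-- `N` represents `φ`: the law of the array of `N` is `φ`. -/
def Euclidean.Represents (N : Euclidean L X) (μ : Measure X) (φ : Measure (Str L)) : Prop :=
  (iid μ).map N.array = φ

/-- The peon `S` is `C`-compatible: membership of `x` in `S` depends only on the coordinates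
`x_A` with `|A| ∈ C`. -/
def PeonCompatible (C : Set ℕ+) {k : ℕ} (S : Set (NF (Fin k) → X)) : Prop :=
  ∀ x y : NF (Fin k) → X, (∀ A, lev A ∈ C → x A = y A) → (x ∈ S ↔ y ∈ S)

/-- `φ` is a limit object of `T`: it is the law of the array of some `T`-on. -/
def IsLimitObject [L.IsRelational] (μ : Measure X) (T : L.Theory) (φ : Measure (Str L)) : Prop :=
  ∃ N : Euclidean L X, N.IsOn μ T ∧ N.Represents μ φ

/-- `φ` is `C`-compatible: some `T`-on representing it has only `C`-compatible peons. -/
def Compatible [L.IsRelational] (μ : Measure X) (T : L.Theory) (C : Set ℕ+)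
    (φ : Measure (Str L)) : Prop :=
  ∃ N : Euclidean L X, N.IsOn μ T ∧ N.Represents μ φ ∧
    ∀ (k : ℕ) (P : L.Relations k), PeonCompatible C (N.peon P)

/-- `φ` is weakly `(ℕ₊ \ B)`-compatible: some `T`-on representing it has an array that is
independent of `(θ_A : |A| ∈ B)`. -/
def WeaklyCompatibleCompl [L.IsRelational] (μ : Measure X) (T : L.Theory) (B : Set ℕ+)
    (φ : Measure (Str L)) : Prop :=
  ∃ N : Euclidean L X, N.IsOn μ T ∧ N.Represents μ φ ∧
    IndepFun N.array (fun (θ : NF ℕ+ → X) (A : {A : NF ℕ+ // lev A ∈ B}) => θ A.1) (iid μ)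

end

end Pool.Agent.Lib.MP_1d1228_co
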