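import Pool.Agent.Lib.MP_1d1228_co.Defs

/-!
Basic facts: measurability of the array, uniqueness of laws on `Str L`, measurability of the
set of models of a theory, and invariance of being a `T`-on.
-/

open MeasureTheory ProbabilityTheory Set Function MeasurableSpace

namespace Pool.Agent.Lib.MP_1d1228_co

lemma ext_of_boxes {ι : Type*} {α : ι → Type*} [∀ i, MeasurableSpace (α i)]
    (P Q : Measure (∀ i, α i)) [IsFiniteMeasure P]
    (h : ∀ (s : Finset ι) (t : ∀ i, Set (α i)), (∀ i, MeasurableSet (t i)) →
      P (Set.pi (s : Set ι) t) = Q (Set.pi (s : Set ι) t)) : P = Q := by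
  refine ext_of_generate_finite _ generateFrom_squareCylinders.symm
    (isPiSystem_squareCylinders (fun _ => isPiSystem_measurableSet) (by simp)) ?_ ?_
  · rintro - ⟨I, t, ht, rfl⟩
    exact h I t (fun i => ht i (mem_univ i))
  · have := h ∅ (fun _ => univ) (fun _ => MeasurableSet.univ)
    simpa using this

section

variable {L : FirstOrder.Language.{0, 0}} {X : Type*} [MeasurableSpace X]

lemma measurable_pushPull {k : ℕ} (α : Fin k → ℕ+) :
    Measurable (fun (θ : NF ℕ+ → X) (A : NF (Fin k)) => θ (push α A)) :=
  measurable_pi_lambda _ fun _ => measurable_pi_apply _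

lemma Euclidean.measurable_array (N : Euclidean L X) : Measurable N.array := by
  refine measurable_pi_lambda _ fun a => ?_
  refine measurableSet_setOfPred.1 ?_
  by_cases ha : Injective a.2.2
  · have : {θ : NF ℕ+ → X | N.array θ a} =
        (fun (θ : NF ℕ+ → X) (A : NF (Fin a.1)) => θ (push a.2.2 A)) ⁻¹' (N.peon a.2.1) := by
      ext θ
      simp [Euclidean.array, ha]
    rw [this]
    exact measurable_pushPull a.2.2 (N.measurableSet_peon a.2.1)
  · have : {θ : NF ℕ+ → X | N.array θ a} = ∅ := by
      ext θ
      simp [Euclidean.array, ha]
    rw [this]; exact MeasurableSet.empty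

lemma realize_term [L.IsRelational] {α : Type} (M M' : Str L) (t : L.Term α) (v : α → ℕ+) :
    @FirstOrder.Language.Term.realize L ℕ+ M.toStructure α v t =
      @FirstOrder.Language.Term.realize L ℕ+ M'.toStructure α v t := by
  cases t with
  | var i => rfl
  | func f ts => exact isEmptyElim f

lemma measurableSet_realize [L.IsRelational] {α : Type} {n : ℕ} (φ : L.BoundedFormula α n)
    (v : α → ℕ+) (xs : Fin n → ℕ+) :
    MeasurableSet {M : Str L | @FirstOrder.Language.BoundedFormula.Realize L ℕ+ M.toStructure α n φ v xs} := by
  induction φ with
  | falsum =>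
    have : {M : Str L | @FirstOrder.Language.BoundedFormula.Realize L ℕ+ M.toStructure α _
        FirstOrder.Language.BoundedFormula.falsum v xs} = ∅ := by
      ext M
      simp [FirstOrder.Language.BoundedFormula.Realize]
    rw [this]; exact MeasurableSet.empty
  | equal t₁ t₂ =>
    by_cases h : @FirstOrder.Language.Term.realize L ℕ+ (Str.toStructure (fun _ => False)) _
        (Sum.elim v xs) t₁ = @FirstOrder.Language.Term.realize L ℕ+ (Str.toStructure (fun _ => False)) _
        (Sum.elim v xs) t₂
    · have : {M : Str L | @FirstOrder.Language.BoundedFormula.Realize L ℕ+ M.toStructure α _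
          (FirstOrder.Language.BoundedFormula.equal t₁ t₂) v xs} = univ := by
        ext M
        simp only [FirstOrder.Language.BoundedFormula.Realize, mem_ofPred_eq, mem_univ, iff_true]
        rw [realize_term M (fun _ => False), realize_term M (fun _ => False), h]
      rw [this]; exact MeasurableSet.univ
    · have : {M : Str L | @FirstOrder.Language.BoundedFormula.Realize L ℕ+ M.toStructure α _
          (FirstOrder.Language.BoundedFormula.equal t₁ t₂) v xs} = ∅ := by
        ext M
        simp only [FirstOrder.Language.BoundedFormula.Realize, mem_ofPred_eq, mem_empty_iff_false, iff_false]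
        rw [realize_term M (fun _ => False), realize_term M (fun _ => False) t₂]
        exact h
      rw [this]; exact MeasurableSet.empty
  | @rel n l R ts =>
    have : {M : Str L | @FirstOrder.Language.BoundedFormula.Realize L ℕ+ M.toStructure α _
        (FirstOrder.Language.BoundedFormula.rel R ts) v xs} =
        {M : Str L | M ⟨l, R, fun i => @FirstOrder.Language.Term.realize L ℕ+
          (Str.toStructure (fun _ => False)) _ (Sum.elim v xs) (ts i)⟩} := by
      ext M
      simp only [FirstOrder.Language.BoundedFormula.Realize, mem_ofPred_eq]
      have h2 : (fun i => @FirstOrder.Language.Term.realize L ℕ+ M.toStructure _ (Sum.elim v xs) (ts i)) =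
        fun i => @FirstOrder.Language.Term.realize L ℕ+
          (Str.toStructure (fun _ => False)) _ (Sum.elim v xs) (ts i) := by
        funext i
        exact realize_term _ _ _ _
      rw [h2]
      rfl
    rw [this]
    exact measurableSet_setOfPred.2 (measurable_pi_apply _)
  | imp f₁ f₂ ih₁ ih₂ =>
    have := (ih₁ xs).compl.union (ih₂ xs)
    convert this using 1
    ext M
    simp only [FirstOrder.Language.BoundedFormula.Realize, mem_ofPred_eq, mem_union, mem_compl_iff]
    tauto
  | all f ih =>
    have : {M : Str L | @FirstOrder.Language.BoundedFormula.Realize L ℕ+ M.toStructure α _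
        (FirstOrder.Language.BoundedFormula.all f) v xs} =
        ⋂ x : ℕ+, {M : Str L | @FirstOrder.Language.BoundedFormula.Realize L ℕ+ M.toStructure α _
          f v (Fin.snoc xs x)} := by
      ext M
      simp [FirstOrder.Language.BoundedFormula.Realize]
    rw [this]
    exact MeasurableSet.iInter fun x => ih _

lemma measurableSet_models [L.IsRelational] [Countable L.Symbols] (T : L.Theory) :
    MeasurableSet {M : Str L | M.Models T} := by
  have hT : (T : Set L.Sentence).Countable := by
    have : Countable L.Sentence := inferInstanceAs (Countable (L.Formula Empty))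
    exact Set.to_countable T
  have : {M : Str L | M.Models T} = ⋂ φ ∈ T, {M : Str L |
      @FirstOrder.Language.BoundedFormula.Realize L ℕ+ M.toStructure Empty 0 φ default default} := by
    ext M
    simp only [Str.Models, mem_ofPred_eq, mem_iInter]
    rw [@FirstOrder.Language.Theory.model_iff]
    refine forall₂_congr fun φ _ => ?_
    refine Iff.of_eq ?_
    unfold FirstOrder.Language.Sentence.Realize FirstOrder.Language.Formula.Realize
    congr 1
    · exact Subsingleton.elim _ _
    · exact Subsingleton.elim _ _
  rw [this]
  exact MeasurableSet.biInter hT fun φ _ => measurableSet_realize φ _ _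

lemma countable_symbols [L.IsRelational] [Finite (Σ k, L.Relations k)] : Countable L.Symbols := by
  have h1 : Countable (Σ k, L.Functions k) := by
    have : IsEmpty (Σ k, L.Functions k) := ⟨fun x => isEmptyElim x.2⟩
    infer_instance
  have h2 : Countable (Σ k, L.Relations k) := Finite.to_countable
  exact inferInstanceAs (Countable ((Σ l, L.Functions l) ⊕ (Σ l, L.Relations l)))

/-- Being a `T`-on depends only on the law of the array. -/
lemma Euclidean.IsOn.of_represents [L.IsRelational] [Finite (Σ k, L.Relations k)]
    {N N' : Euclidean L X} {μ : Measure X} {T : L.Theory} {φ : Measure (Str L)}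
    (h : N.IsOn μ T) (hN : N.Represents μ φ) (hN' : N'.Represents μ φ) : N'.IsOn μ T := by
  have := countable_symbols (L := L)
  have hm := measurableSet_models (L := L) T
  have h1 : ∀ᵐ M ∂φ, M.Models T := by
    rw [← hN, ae_map_iff N.measurable_array.aemeasurable hm]
    exact h
  rw [← hN', ae_map_iff N'.measurable_array.aemeasurable hm] at h1
  exact h1

/-- To compare two laws of arrays it is enough to compare them on boxes. -/
lemma represents_of_boxes {N N' : Euclidean L X} {μ : Measure X} [IsProbabilityMeasure μ]
    (h : ∀ (s : Finset (Σ k : ℕ, L.Relations k × (Fin k → ℕ+))) (t : _ → Set Prop),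
      iid μ (N'.array ⁻¹' (Set.pi (s : Set _) t)) = iid μ (N.array ⁻¹' (Set.pi (s : Set _) t))) :
    (iid μ).map N'.array = (iid μ).map N.array := by
  have : IsProbabilityMeasure (iid μ) := by unfold iid; infer_instance
  have : IsProbabilityMeasure ((iid μ).map N'.array) :=
    Measure.isProbabilityMeasure_map N'.measurable_array.aemeasurable
  refine ext_of_boxes _ _ fun s t ht => ?_
  have hm : MeasurableSet (Set.pi (s : Set (Σ k : ℕ, L.Relations k × (Fin k → ℕ+))) t) :=
    MeasurableSet.pi s.countable_toSet fun i _ => ht i
  rw [Measure.map_apply N'.measurable_array hm, Measure.map_apply N.measurable_array hm]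
  exact h s t

end

end Pool.Agent.Lib.MP_1d1228_co
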