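import Pool.Agent.Lib.MP_1d1228_co.PartB

/-!
Assembly of the case `1 ∉ B`, and the final equivalence.
-/

open MeasureTheory ProbabilityTheory Set Function MeasurableSpace Filter
open scoped ENNReal

namespace Pool.Agent.Lib.MP_1d1228_co

variable {X : Type*} [MeasurableSpace X] {L : FirstOrder.Language.{0, 0}}

lemma subst_const (N : Euclidean L X) (μ : Measure X) [IsProbabilityMeasure μ]
    [NullSingletonClass μ] (B : Set ℕ+)
    (hind : IndepFun N.array (fun (θ : NF ℕ+ → X) (A : {A : NF ℕ+ // lev A ∈ B}) => θ A.1)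
      (iid μ))
    {F : (ℕ → Prop) → X} (hF : Measurable F)
    (hFlaw : (Measure.infinitePi (fun _ : ℕ => coin)).map F = μ)
    {h : X → Bool → X} (hh : Measurable h)
    (hlaw : μ.map h = Measure.infinitePi (fun _ : Bool => μ))
    {u₀ : X → ℝ} (hu : Measurable u₀) (huinj : Injective u₀) {z₀ : X → Place → Prop}
    (hz : Measurable z₀) (hzlaw : μ.map z₀ = Measure.infinitePi (fun _ : Place => coin))
    (s : Finset (Σ k : ℕ, L.Relations k × (Fin k → ℕ+))) (t : (Σ k : ℕ, L.Relations k × (Fin k → ℕ+)) → Set Prop) :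
    ∀ᵐ y ∂(iid μ), iid μ {θ | N.array (mix B θ (subst F h u₀ z₀ y)) ∈ Set.pi (s : Set _) t} =
      iid μ (N.array ⁻¹' (Set.pi (s : Set _) t)) := by
  classical
  have hne : Nonempty X := μ.nonempty_of_neZero
  obtain ⟨x0⟩ := hne
  set E : Set (Str L) := Set.pi (s : Set _) t with hEdef
  have hE : MeasurableSet E := MeasurableSet.pi s.countable_toSet fun i _ => trivial
  have hconst := ae_const N μ B hind E hE
  let M : Set ((NF ℕ+ → X) × (NF ℕ+ → X)) := {p | N.array (mix B p.1 p.2) ∈ E}
  have hM : MeasurableSet M := N.measurable_array.comp (measurable_mix B) hE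
  let q : (NF ℕ+ → X) → ℝ≥0∞ := fun t => iid μ ((fun θ => (θ, t)) ⁻¹' M)
  have hq : Measurable q := measurable_measure_prodMk_right hM
  let 𝓕 : Finset (NF ℕ+) := s.biUnion fun a => (Finset.univ : Finset (NF (Fin a.1))).image
    (push a.2.2)
  have hdep : ∀ t t' : NF ℕ+ → X, (∀ A ∈ 𝓕, t A = t' A) → q t = q t' := by
    intro t t' htt
    have : ∀ θ, (N.array (mix B θ t) ∈ E ↔ N.array (mix B θ t') ∈ E) := by
      intro θ
      have h1 : ∀ a ∈ s, N.array (mix B θ t) a = N.array (mix B θ t') a := by
        intro a ha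
        unfold Euclidean.array
        have : (fun A => mix B θ t (push a.2.2 A)) = (fun A => mix B θ t' (push a.2.2 A)) := by
          funext A
          unfold mix
          have hmem : push a.2.2 A ∈ 𝓕 :=
            Finset.mem_biUnion.2 ⟨a, ha, Finset.mem_image_of_mem _ (Finset.mem_univ _)⟩
          rw [htt _ hmem]
        rw [this]
      simp only [hEdef, Set.mem_pi]
      exact forall₂_congr fun a ha => by rw [h1 a ha]
    simp only [q, M, preimage_ofPred_eq, this]
  let ι : Type := {A : NF ℕ+ // A ∈ 𝓕}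
  let ext : (ι → X) → (NF ℕ+ → X) := fun τ A => if hA : A ∈ 𝓕 then τ ⟨A, hA⟩ else x0
  have hext : Measurable ext := by
    refine measurable_pi_lambda _ fun A => ?_
    by_cases hA : A ∈ 𝓕
    · simp only [ext, hA, dif_pos]; exact measurable_pi_apply _
    · simp only [ext, hA, dif_neg, not_false_eq_true]; exact measurable_const
  have hqr : ∀ t : NF ℕ+ → X, q (ext (fun i : ι => t i.1)) = q t := by
    intro t
    refine hdep _ _ fun A hA => ?_
    simp [ext, hA]
  let Q : Set (ι → X) := {τ | q (ext τ) ≠ iid μ (N.array ⁻¹' E)}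
  have hQ : MeasurableSet Q := (hq.comp hext) (measurableSet_singleton _).compl
  have hmr : Measurable (fun (t : NF ℕ+ → X) (i : ι) => t i.1) :=
    measurable_pi_lambda _ fun i => measurable_pi_apply _
  have hQ0 : Measure.infinitePi (fun _ : ι => μ) Q = 0 := by
    have := map_comp_inj (J := ι) μ (fun i : ι => i.1) Subtype.val_injective
    rw [← this, Measure.map_apply hmr hQ]
    have e : (fun (t : NF ℕ+ → X) (i : ι) => t i.1) ⁻¹' Q =
        {t | ¬ (q t = iid μ (N.array ⁻¹' E))} := by
      ext t
      simp only [Q, mem_preimage, mem_ofPred_eq, hqr, ne_eq]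
    rw [e]
    exact hconst
  have hfin : Finite ι := inferInstanceAs (Finite {A : NF ℕ+ // A ∈ 𝓕})
  have hnull := subst_null μ hF hFlaw hh hlaw hu huinj hz hzlaw (fun i : ι => i.1)
    Subtype.val_injective Q hQ hQ0
  have : ∀ᵐ y ∂(iid μ), (fun i : ι => subst F h u₀ z₀ y i.1) ∉ Q := by
    rw [ae_iff]; simpa using hnull
  filter_upwards [this] with y hy
  simp only [Q, mem_ofPred_eq, ne_eq, not_not] at hy
  rw [hqr] at hy
  exact hy

open Classical in
/-- Replace the coordinates at the levels in `B` by the substitute. -/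
noncomputable def trans (B : Set ℕ+) (F : (ℕ → Prop) → X) (h : X → Bool → X) (u₀ : X → ℝ)
    (z₀ : X → Place → Prop) {V : Type} (x : NF V → X) : NF V → X :=
  fun A => if lev A ∈ B then subst F h u₀ z₀ (fun A => h (x A) true) A else h (x A) false

lemma measurable_trans (B : Set ℕ+) {F : (ℕ → Prop) → X} (hF : Measurable F)
    {h : X → Bool → X} (hh : Measurable h) {u₀ : X → ℝ} (hu : Measurable u₀)
    {z₀ : X → Place → Prop} (hz : Measurable z₀) {V : Type} :
    Measurable (fun x : NF V → X => trans B F h u₀ z₀ x) := by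
  have h1 : Measurable (fun (x : NF V → X) (A : NF V) => h (x A) true) :=
    measurable_pi_lambda _ fun A =>
      (measurable_pi_apply true).comp (hh.comp (measurable_pi_apply A))
  refine measurable_pi_lambda _ fun A => ?_
  by_cases hA : lev A ∈ B
  · simp only [trans, hA, if_true]
    exact (measurable_pi_apply A).comp ((measurable_subst hF hh hu hz).comp h1)
  · simp only [trans, hA, if_false]
    exact (measurable_pi_apply false).comp (hh.comp (measurable_pi_apply A))

/-- The new Euclidean structure. -/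
noncomputable def lift (N : Euclidean L X) (B : Set ℕ+) {F : (ℕ → Prop) → X} (hF : Measurable F)
    {h : X → Bool → X} (hh : Measurable h) {u₀ : X → ℝ} (hu : Measurable u₀)
    {z₀ : X → Place → Prop} (hz : Measurable z₀) : Euclidean L X where
  peon P := {x | trans B F h u₀ z₀ x ∈ N.peon P}
  measurableSet_peon P := measurable_trans B hF hh hu hz (N.measurableSet_peon P)

lemma trans_push (B : Set ℕ+) (F : (ℕ → Prop) → X) (h : X → Bool → X) (u₀ : X → ℝ)
    (z₀ : X → Place → Prop) {k : ℕ} {α : Fin k → ℕ+} (hα : Injective α) (θ : NF ℕ+ → X) :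
    trans B F h u₀ z₀ (fun A => θ (push α A)) = fun A => trans B F h u₀ z₀ θ (push α A) := by
  funext A
  unfold trans
  rw [lev_push hα]
  by_cases hA : lev A ∈ B
  · simp only [hA, if_true]
    unfold subst
    rw [bitsOf_push]
    simp only [push_single]
    rfl
  · simp only [hA, if_false]

lemma lift_array (N : Euclidean L X) (B : Set ℕ+) {F : (ℕ → Prop) → X} (hF : Measurable F)
    {h : X → Bool → X} (hh : Measurable h) {u₀ : X → ℝ} (hu : Measurable u₀)
    {z₀ : X → Place → Prop} (hz : Measurable z₀) (θ : NF ℕ+ → X) :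
    (lift N B hF hh hu hz).array θ = N.array (trans B F h u₀ z₀ θ) := by
  funext a
  refine propext ?_
  unfold Euclidean.array
  refine and_congr_right fun hα => ?_
  simp only [lift, mem_ofPred_eq]
  rw [trans_push B F h u₀ z₀ hα]

theorem compatible_of_weak [StandardBorelSpace X] [L.IsRelational]
    [Finite (Σ k, L.Relations k)] (μ : Measure X) [IsProbabilityMeasure μ] [NullSingletonClass μ]
    (T : L.Theory) (φ : Measure (Str L)) (B : Set ℕ+) (h1B : 1 ∉ B)
    (hw : WeaklyCompatibleCompl μ T B φ) : Compatible μ T Bᶜ φ := by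
  obtain ⟨N, hOn, hRep, hind⟩ := hw
  obtain ⟨F, hF, hFlaw⟩ := exists_map_of_atomless (Measure.infinitePi (fun _ : ℕ => coin)) μ
  obtain ⟨h, hh, hlaw⟩ := exists_map_of_atomless μ (Measure.infinitePi (fun _ : Bool => μ))
  obtain ⟨z₀, hz, hzlaw⟩ := exists_map_of_atomless μ (Measure.infinitePi (fun _ : Place => coin))
  have hu := (measurableEmbedding_embeddingReal X).measurable
  have huinj := (measurableEmbedding_embeddingReal X).injective
  set N' := lift N B hF hh hu hz with hN'
  have hlawN : (iid μ).map N'.array = (iid μ).map N.array := by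
    refine represents_of_boxes fun s t => ?_
    set E : Set (Str L) := Set.pi (s : Set _) t with hEdef
    have hE : MeasurableSet E := MeasurableSet.pi s.countable_toSet fun i _ => trivial
    have hcon := subst_const N μ B hind hF hFlaw hh hlaw hu huinj hz hzlaw s t
    let M : Set ((NF ℕ+ → X) × (NF ℕ+ → X)) :=
      {p | N.array (mix B p.1 (subst F h (embeddingReal X) z₀ p.2)) ∈ E}
    have hsm := measurable_subst (V := ℕ+) hF hh hu hz
    have hM : MeasurableSet M := by
      have : Measurable (fun p : (NF ℕ+ → X) × (NF ℕ+ → X) =>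
          N.array (mix B p.1 (subst F h (embeddingReal X) z₀ p.2))) :=
        N.measurable_array.comp ((measurable_mix B).comp
          (measurable_fst.prodMk (hsm.comp measurable_snd)))
      exact this hE
    have hsplit := map_split (J := NF ℕ+) μ hh hlaw
    have hms : Measurable (fun ω : NF ℕ+ → X =>
        ((fun j => h (ω j) false), (fun j => h (ω j) true))) :=
      (measurable_pi_lambda _ fun j => (measurable_pi_apply false).comp
        (hh.comp (measurable_pi_apply j))).prodMk
        (measurable_pi_lambda _ fun j => (measurable_pi_apply true).comp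
        (hh.comp (measurable_pi_apply j)))
    have e1 : N'.array ⁻¹' E =
        (fun ω : NF ℕ+ → X => ((fun j => h (ω j) false), (fun j => h (ω j) true))) ⁻¹' M := by
      ext ω
      simp only [mem_preimage, hN', lift_array, M, mem_ofPred_eq]
      rfl
    have e2 : iid μ (N'.array ⁻¹' E) = ((iid μ).prod (iid μ)) M := by
      rw [e1]
      unfold iid
      rw [← Measure.map_apply hms hM, hsplit]
    rw [e2, Measure.prod_apply_symm hM]
    have e3 : ∀ᵐ y ∂(iid μ), iid μ ((fun θ => (θ, y)) ⁻¹' M) = iid μ (N.array ⁻¹' E) := hcon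
    rw [lintegral_congr_ae e3, lintegral_const, measure_univ, mul_one]
  have hRep' : N'.Represents μ φ := hlawN.trans hRep
  refine ⟨N', hOn.of_represents hRep hRep', hRep', fun k P x y hxy => ?_⟩
  have hs : ∀ v : Fin k, x (single v) = y (single v) := by
    intro v
    refine hxy _ ?_
    rw [lev_single]; exact h1B
  have : trans B F h (embeddingReal X) z₀ x = trans B F h (embeddingReal X) z₀ y := by
    funext A
    unfold trans
    by_cases hA : lev A ∈ B
    · simp only [hA, if_true]
      unfold subst
      simp only [hs]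
    · simp only [hA, if_false]
      rw [hxy A hA]
  simp only [hN', lift, mem_ofPred_eq, this]

theorem exists_counterexample [StandardBorelSpace X] (μ : Measure X) [IsProbabilityMeasure μ]
    [NullSingletonClass μ] (B : Set ℕ+) (h1 : 1 ∈ B) (hB : B ≠ univ) :
    ∃ (L : FirstOrder.Language.{0, 0}) (_ : L.IsRelational) (_ : Finite (Σ k, L.Relations k))
      (T : L.Theory) (φ : Measure (Str L)), T.IsUniversal ∧ IsLimitObject μ T φ ∧
        WeaklyCompatibleCompl μ T B φ ∧ ¬ Compatible μ T Bᶜ φ := by
  obtain ⟨f, hf, hmap⟩ := exists_map_unit μ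
  set S : Set X := f ⁻¹' (Iic ⟨1 / 2, by norm_num, by norm_num⟩) with hS
  have hSm : MeasurableSet S := hf measurableSet_Iic
  have hSh : μ S = μ Sᶜ := by
    have e1 : μ S = ENNReal.ofReal (1 / 2) := by
      rw [hS, ← Measure.map_apply hf measurableSet_Iic, hmap, unitInterval.volume_Iic]
    have e2 : μ Sᶜ = ENNReal.ofReal (1 / 2) := by
      rw [prob_compl_eq_one_sub hSm, e1, ← ENNReal.ofReal_one, ← ENNReal.ofReal_sub _ (by norm_num)]
      norm_num
    rw [e1, e2]
  -- least level not in B
  have hex : ∃ n : ℕ, ∃ hn : 0 < n, (⟨n, hn⟩ : ℕ+) ∉ B := by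
    obtain ⟨m, hm⟩ := (ne_univ_iff_exists_notMem B).1 hB
    exact ⟨m, m.2, hm⟩
  classical
  obtain ⟨hn, hnB⟩ := Nat.find_spec hex
  set n := Nat.find hex with hndef
  have hlt : ∀ m : ℕ+, (m : ℕ) < n → m ∈ B := by
    intro m hm
    have := Nat.find_min hex hm
    push Not at this
    exact this m.2
  have hn2 : 2 ≤ n := by
    by_contra hcon
    have : n = 1 := by omega
    apply hnB
    have e : (⟨n, hn⟩ : ℕ+) = 1 := PNat.eq this
    rw [e]; exact h1
  have hu := (measurableEmbedding_embeddingReal X).measurable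
  have huinj := (measurableEmbedding_embeddingReal X).injective
  set N := orient n hn (embeddingReal X) hu S hSm with hN
  have hOn : N.IsOn μ (∅ : (oneRel n).Theory) := by
    refine Filter.Eventually.of_forall fun θ => ?_
    unfold Str.Models
    exact @FirstOrder.Language.Theory.Model.mk _ _ (_) _ (fun φ hφ => absurd hφ (notMem_empty φ))
  refine ⟨oneRel n, inferInstance, inferInstance, ∅, (iid μ).map N.array, ⟨?_⟩,
    ⟨N, hOn, rfl⟩, ⟨N, hOn, rfl, ?_⟩, ?_⟩
  · intro φ hφ
    exact absurd hφ (notMem_empty φ)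
  · exact orient_weak hn _ hu huinj S hSm μ hSh B h1 hnB
  · exact orient_not_compatible hn2 _ hu huinj S hSm μ B hlt ∅ _ rfl

end Pool.Agent.Lib.MP_1d1228_co
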