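import Mathlib

/-!
Merging two independent i.i.d. families along an injection.
-/

open MeasureTheory ProbabilityTheory Set Function

namespace Pool.Agent.Lib.MP_1d1228_co

variable {X : Type*} [MeasurableSpace X]

lemma map_sumElim {J1 J2 : Type*} (μ : Measure X) [IsProbabilityMeasure μ] :
    ((Measure.infinitePi (fun _ : J1 => μ)).prod (Measure.infinitePi (fun _ : J2 => μ))).map
      (fun p => (Sum.elim p.1 p.2 : J1 ⊕ J2 → X)) = Measure.infinitePi (fun _ : J1 ⊕ J2 => μ) := by
  have hm : Measurable (fun p : (J1 → X) × (J2 → X) => (Sum.elim p.1 p.2 : J1 ⊕ J2 → X)) := by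
    refine measurable_pi_lambda _ fun j => ?_
    rcases j with j | j
    · exact (measurable_pi_apply j).comp measurable_fst
    · exact (measurable_pi_apply j).comp measurable_snd
  refine Measure.eq_infinitePi _ fun s t ht => ?_
  rw [Measure.map_apply hm (MeasurableSet.pi s.countable_toSet fun i _ => ht i)]
  have hpre : (fun p : (J1 → X) × (J2 → X) => (Sum.elim p.1 p.2 : J1 ⊕ J2 → X)) ⁻¹'
      (Set.pi (s : Set (J1 ⊕ J2)) t) =
      (Set.pi (s.toLeft : Set J1) (fun j => t (Sum.inl j))) ×ˢ
      (Set.pi (s.toRight : Set J2) (fun j => t (Sum.inr j))) := by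
    ext ⟨x, y⟩
    simp [Set.mem_pi]
  rw [hpre, Measure.prod_prod, Measure.infinitePi_pi _ (fun i _ => ht _),
    Measure.infinitePi_pi _ (fun i _ => ht _)]
  conv_rhs => rw [← Finset.toLeft_disjSum_toRight (u := s)]
  rw [Finset.prod_disjSum]

/-- If `θ` and `y` are independent i.i.d. families with law `μ` and `σ` is injective, then
the family `j ↦ (θ or y)(σ j)` is i.i.d. with law `μ`. -/
lemma map_merge {J1 J2 J : Type*} (μ : Measure X) [IsProbabilityMeasure μ]
    (σ : J → J1 ⊕ J2) (hσ : Injective σ) :
    ((Measure.infinitePi (fun _ : J1 => μ)).prod (Measure.infinitePi (fun _ : J2 => μ))).map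
      (fun p j => Sum.elim p.1 p.2 (σ j)) = Measure.infinitePi (fun _ : J => μ) := by
  have hm : Measurable (fun p : (J1 → X) × (J2 → X) => (Sum.elim p.1 p.2 : J1 ⊕ J2 → X)) := by
    refine measurable_pi_lambda _ fun j => ?_
    rcases j with j | j
    · exact (measurable_pi_apply j).comp measurable_fst
    · exact (measurable_pi_apply j).comp measurable_snd
  have h2 := Measure.map_infinitePi_infinitePi_of_inj (P := fun _ : J1 ⊕ J2 => μ) hσ
  rw [← h2, ← map_sumElim μ, Measure.map_map (by fun_prop) hm]
  rfl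

/-- Restriction of an i.i.d. family along an injection. -/
lemma map_comp_inj {J1 J : Type*} (μ : Measure X) [IsProbabilityMeasure μ]
    (σ : J → J1) (hσ : Injective σ) :
    (Measure.infinitePi (fun _ : J1 => μ)).map (fun θ j => θ (σ j)) =
      Measure.infinitePi (fun _ : J => μ) :=
  Measure.map_infinitePi_infinitePi_of_inj (P := fun _ : J1 => μ) hσ

lemma map_pointwise {J : Type*} {Y : Type*} [MeasurableSpace Y] (μ : Measure X)
    [IsProbabilityMeasure μ] (f : X → Y) (hf : Measurable f) :
    (Measure.infinitePi (fun _ : J => μ)).map (fun θ j => f (θ j)) =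
      Measure.infinitePi (fun _ : J => μ.map f) :=
  Measure.infinitePi_map_pi (fun _ : J => μ) (f := fun _ => f) (fun _ => hf)

end Pool.Agent.Lib.MP_1d1228_co
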