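import Pool.Agent.Lib.MP_1d1228_co.PartA

/-!
Mixing two independent families along the levels, and a criterion for independence.
-/

open MeasureTheory ProbabilityTheory Set Function MeasurableSpace

namespace Pool.Agent.Lib.MP_1d1228_co

variable {L : FirstOrder.Language.{0, 0}} {X : Type*} [MeasurableSpace X]

open Classical in
/-- The family that equals `t` on the levels in `B` and `θ` elsewhere. -/
noncomputable def mix (B : Set ℕ+) (θ t : NF ℕ+ → X) : NF ℕ+ → X :=
  fun A => if lev A ∈ B then t A else θ A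

lemma measurable_mix (B : Set ℕ+) :
    Measurable (fun p : (NF ℕ+ → X) × (NF ℕ+ → X) => mix B p.1 p.2) := by
  refine measurable_pi_lambda _ fun A => ?_
  by_cases h : lev A ∈ B
  · simp only [mix, h, if_true]
    exact (measurable_pi_apply A).comp measurable_snd
  · simp only [mix, h, if_false]
    exact (measurable_pi_apply A).comp measurable_fst

lemma map_mix (μ : Measure X) [IsProbabilityMeasure μ] (B : Set ℕ+) :
    ((iid μ).prod (iid μ)).map (fun p => mix B p.1 p.2) = iid μ := by
  classical
  have := map_merge (J1 := NF ℕ+) (J2 := NF ℕ+) (J := NF ℕ+) μ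
    (fun A => if lev A ∈ B then Sum.inr A else Sum.inl A) (by
      intro A A' h
      by_cases h1 : lev A ∈ B <;> by_cases h2 : lev A' ∈ B <;> simp_all)
  unfold iid
  refine Eq.trans ?_ this
  congr 1
  funext p A
  by_cases h : lev A ∈ B <;> simp [mix, h]

lemma indep_of_const_law (N : Euclidean L X) (μ : Measure X) [IsProbabilityMeasure μ]
    (B : Set ℕ+) (Λ : Measure (Str L))
    (h : ∀ᵐ t ∂(iid μ), (iid μ).map (fun θ => N.array (mix B θ t)) = Λ) :
    IndepFun N.array (fun (θ : NF ℕ+ → X) (A : {A : NF ℕ+ // lev A ∈ B}) => θ A.1) (iid μ) := by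
  have hr : Measurable (fun (θ : NF ℕ+ → X) (A : {A : NF ℕ+ // lev A ∈ B}) => θ A.1) :=
    measurable_pi_lambda _ fun _ => measurable_pi_apply _
  have key : ∀ (E : Set (Str L)) (T : Set ({A : NF ℕ+ // lev A ∈ B} → X)),
      MeasurableSet E → MeasurableSet T →
      iid μ (N.array ⁻¹' E ∩ (fun (θ : NF ℕ+ → X) (A : {A : NF ℕ+ // lev A ∈ B}) => θ A.1) ⁻¹' T)
        = Λ E * iid μ ((fun (θ : NF ℕ+ → X) (A : {A : NF ℕ+ // lev A ∈ B}) => θ A.1) ⁻¹' T) := by
    intro E T hE hT
    have hm : MeasurableSet (N.array ⁻¹' E ∩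
        (fun (θ : NF ℕ+ → X) (A : {A : NF ℕ+ // lev A ∈ B}) => θ A.1) ⁻¹' T) :=
      (N.measurable_array hE).inter (hr hT)
    conv_lhs => rw [← map_mix μ B]
    rw [Measure.map_apply (measurable_mix B) hm, Measure.prod_apply_symm (measurable_mix B hm)]
    have h1 : ∀ᵐ t ∂(iid μ), iid μ ((fun θ => (θ, t)) ⁻¹' ((fun p : (NF ℕ+ → X) × (NF ℕ+ → X) =>
        mix B p.1 p.2) ⁻¹' (N.array ⁻¹' E ∩
        (fun (θ : NF ℕ+ → X) (A : {A : NF ℕ+ // lev A ∈ B}) => θ A.1) ⁻¹' T))) =
        ((fun (θ : NF ℕ+ → X) (A : {A : NF ℕ+ // lev A ∈ B}) => θ A.1) ⁻¹' T).indicator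
          (fun _ => Λ E) t := by
      filter_upwards [h] with t ht
      have hmt : Measurable (fun θ : NF ℕ+ → X => N.array (mix B θ t)) :=
        N.measurable_array.comp ((measurable_mix B).comp (measurable_id.prodMk measurable_const))
      have hrt : ∀ θ : NF ℕ+ → X, (fun (A : {A : NF ℕ+ // lev A ∈ B}) => mix B θ t A.1) =
          (fun (A : {A : NF ℕ+ // lev A ∈ B}) => t A.1) := by
        intro θ; funext A
        simp [mix, A.2]
      by_cases hT' : (fun (A : {A : NF ℕ+ // lev A ∈ B}) => t A.1) ∈ T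
      · rw [indicator_of_mem (by exact hT')]
        rw [← ht, Measure.map_apply hmt hE]
        congr 1
        ext θ
        simp only [mem_preimage, mem_inter_iff]
        rw [hrt θ]
        simp [hT']
      · rw [indicator_of_notMem (by exact hT')]
        rw [measure_eq_zero_iff_ae_notMem]
        refine Filter.Eventually.of_forall fun θ hθ => ?_
        simp only [mem_preimage, mem_inter_iff] at hθ
        rw [hrt θ] at hθ
        exact hT' hθ.2
    rw [lintegral_congr_ae h1, lintegral_indicator (hr hT), setLIntegral_const]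
  rw [indepFun_iff_measure_inter_preimage_eq_mul]
  intro E T hE hT
  rw [key E T hE hT]
  have := key E univ hE MeasurableSet.univ
  rw [preimage_univ, inter_univ, measure_univ, mul_one] at this
  rw [this]

end Pool.Agent.Lib.MP_1d1228_co
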