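import Mathlib

/-!
Atomless standard Borel probability spaces can be mapped onto any standard Borel
probability space.
-/

open MeasureTheory ProbabilityTheory Set Filter Topology unitInterval

namespace Pool.Agent.Lib.MP_1d1228_co

lemma continuous_cdf_of_null (μ : Measure ℝ) [IsProbabilityMeasure μ] [NullSingletonClass μ] :
    Continuous (cdf μ) := by
  rw [continuous_iff_continuousAt]
  intro a
  rw [(monotone_cdf μ).continuousAt_iff_leftLim_eq_rightLim]
  have h1 : (cdf μ).measure {a} = 0 := by
    rw [measure_cdf]; simp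
  rw [StieltjesFunction.measure_singleton] at h1
  have h2 : Function.leftLim (cdf μ) a ≤ cdf μ a := (monotone_cdf μ).leftLim_le le_rfl
  have h3 : cdf μ a - Function.leftLim (cdf μ) a ≤ 0 := by
    simpa using h1
  have h4 : Function.rightLim (cdf μ) a = cdf μ a := (cdf μ).rightLim_eq a
  rw [h4]
  linarith

lemma exists_map_real (μ : Measure ℝ) [IsProbabilityMeasure μ] [NullSingletonClass μ] :
    ∃ f : ℝ → I, Measurable f ∧ μ.map f = volume := by
  have hc := continuous_cdf_of_null μ
  let f : ℝ → I := fun x => ⟨cdf μ x, cdf_nonneg μ x, cdf_le_one μ x⟩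
  have hf : Continuous f := by
    exact hc.subtype_mk _
  have hmeas : Measurable f := hf.measurable
  refine ⟨f, hmeas, ?_⟩
  have : IsProbabilityMeasure (μ.map f) := Measure.isProbabilityMeasure_map hmeas.aemeasurable
  refine Measure.ext_of_Iic _ _ fun a => ?_
  rw [Measure.map_apply hmeas measurableSet_Iic, unitInterval.volume_Iic]
  by_cases ha : (a : ℝ) = 1
  · have : f ⁻¹' Iic a = univ := by
      ext x
      simp only [mem_preimage, mem_Iic, mem_univ, iff_true]
      change cdf μ x ≤ a
      rw [ha]; exact cdf_le_one μ x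
    rw [this, ha]; simp
  have ha1 : (a : ℝ) < 1 := lt_of_le_of_ne a.2.2 ha
  have hpre : f ⁻¹' Iic a = {x | cdf μ x ≤ a} := rfl
  rw [hpre]
  by_cases hne : ({x | cdf μ x ≤ a} : Set ℝ).Nonempty
  · -- bounded above
    obtain ⟨b, hb⟩ : ∃ b, (a : ℝ) < cdf μ b := by
      have := (tendsto_cdf_atTop μ).eventually (lt_mem_nhds ha1)
      exact this.exists
    have hbdd : BddAbove ({x | cdf μ x ≤ a} : Set ℝ) := by
      refine ⟨b, fun x hx => ?_⟩
      by_contra hxb
      push Not at hxb
      have := monotone_cdf μ hxb.le
      exact absurd (lt_of_lt_of_le hb this) (not_lt.mpr hx)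
    have hclosed : IsClosed ({x | cdf μ x ≤ a} : Set ℝ) := isClosed_le hc continuous_const
    set s := sSup ({x | cdf μ x ≤ a} : Set ℝ) with hs
    have hsmem : cdf μ s ≤ a := hclosed.csSup_mem hne hbdd
    have hset : ({x | cdf μ x ≤ a} : Set ℝ) = Iic s := by
      ext x
      constructor
      · intro hx
        exact le_csSup hbdd hx
      · intro hx
        exact (monotone_cdf μ hx).trans hsmem
    have hge : (a : ℝ) ≤ cdf μ s := by
      have hcw : Tendsto (cdf μ) (𝓝[>] s) (𝓝 (cdf μ s)) := (hc.tendsto s).mono_left nhdsWithin_le_nhds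
      refine ge_of_tendsto hcw ?_
      refine eventually_nhdsWithin_of_forall fun y hy => ?_
      have hy' : y ∉ ({x | cdf μ x ≤ a} : Set ℝ) := by
        rw [hset]; exact fun h => absurd (mem_Iic.mp h) (not_le.mpr (mem_Ioi.mp hy))
      exact (not_le.mp hy').le
    rw [hset, ← ofReal_cdf μ s, le_antisymm hsmem hge]
  · rw [Set.not_nonempty_iff_eq_empty] at hne
    rw [hne, measure_empty]
    have h0 : (a : ℝ) ≤ 0 := by
      refine ge_of_tendsto (tendsto_cdf_atBot μ) (Eventually.of_forall fun x => ?_)
      have : x ∉ ({x | cdf μ x ≤ a} : Set ℝ) := by rw [hne]; exact notMem_empty x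
      exact (not_le.mp this).le
    rw [ENNReal.ofReal_of_nonpos h0]

variable {X : Type*} [MeasurableSpace X] [StandardBorelSpace X]

lemma exists_map_unit (μ : Measure X) [IsProbabilityMeasure μ] [NullSingletonClass μ] :
    ∃ f : X → I, Measurable f ∧ μ.map f = volume := by
  have he := measurableEmbedding_embeddingReal X
  have h1 : IsProbabilityMeasure (μ.map (embeddingReal X)) :=
    Measure.isProbabilityMeasure_map he.measurable.aemeasurable
  have h2 : NullSingletonClass (μ.map (embeddingReal X)) := by
    constructor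
    intro x
    rw [Measure.map_apply he.measurable (measurableSet_singleton x)]
    refine Set.Subsingleton.measure_zero ?_ μ
    intro a ha b hb
    exact he.injective (ha.trans hb.symm)
  obtain ⟨f, hf, hmap⟩ := exists_map_real (μ.map (embeddingReal X))
  refine ⟨f ∘ embeddingReal X, hf.comp he.measurable, ?_⟩
  rw [← Measure.map_map hf he.measurable, hmap]

/-- Any standard Borel probability space is a measurable image of an atomless one. -/
lemma exists_map_of_atomless (μ : Measure X) [IsProbabilityMeasure μ] [NullSingletonClass μ]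
    {Y : Type*} [MeasurableSpace Y] [StandardBorelSpace Y] (ν : Measure Y)
    [IsProbabilityMeasure ν] :
    ∃ f : X → Y, Measurable f ∧ μ.map f = ν := by
  have : Nonempty Y := ν.nonempty_of_neZero
  obtain ⟨f, hf, hmap⟩ := exists_map_unit μ
  obtain ⟨g, hg, hmap'⟩ := ν.exists_measurable_map_eq
  refine ⟨g ∘ f, hg.comp hf, ?_⟩
  rw [← Measure.map_map hg hf, hmap, hmap']

end Pool.Agent.Lib.MP_1d1228_co
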