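import Pool.Agent.Lib.MP_1d1228_co.Mix
import Pool.Agent.Lib.MP_1d1228_co.Split

/-!
The case `1 ∈ B ≠ ℕ₊`: the random `n`-ary orientation, with `n` the least element not in `B`.
-/

open MeasureTheory ProbabilityTheory Set Function MeasurableSpace

namespace Pool.Agent.Lib.MP_1d1228_co

/-- The language with a single relation symbol, of arity `n`. -/
def oneRel (n : ℕ) : FirstOrder.Language.{0, 0} := ⟨fun _ => Empty, fun m => PLift (m = n)⟩

instance (n : ℕ) : (oneRel n).IsRelational := fun _ => inferInstanceAs (IsEmpty Empty)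

instance (n : ℕ) : Finite (Σ k, (oneRel n).Relations k) := by
  refine Finite.of_injective (fun _ => ()) ?_
  rintro ⟨k, ⟨hk⟩⟩ ⟨k', ⟨hk'⟩⟩ _
  subst hk; subst hk'; rfl

/-- Positivity of the Vandermonde determinant. -/
def pos {n : ℕ} (w : Fin n → ℝ) : Prop := 0 < (Matrix.vandermonde w).det

lemma pos_comp {n : ℕ} {w w' : Fin n → ℝ} (hw : Injective w) (hw' : Injective w')
    (σ : Equiv.Perm (Fin n)) : (pos (w ∘ σ) ↔ pos (w' ∘ σ)) ↔ (pos w ↔ pos w') := by
  have h1 : ∀ v : Fin n → ℝ, (Matrix.vandermonde (v ∘ σ)).det =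
      (Equiv.Perm.sign σ : ℤ) * (Matrix.vandermonde v).det := by
    intro v
    have := Matrix.det_permute σ (Matrix.vandermonde v)
    rw [← this]
    rfl
  have h2 : (Matrix.vandermonde w).det ≠ 0 := Matrix.det_vandermonde_ne_zero_iff.2 hw
  have h3 : (Matrix.vandermonde w').det ≠ 0 := Matrix.det_vandermonde_ne_zero_iff.2 hw'
  unfold pos
  rw [h1 w, h1 w']
  rcases Int.units_eq_one_or (Equiv.Perm.sign σ) with hs | hs
  · rw [hs]; simp
  · rw [hs]
    simp only [Units.val_neg, Units.val_one, Int.cast_neg, Int.cast_one, neg_mul, one_mul,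
      Left.neg_pos_iff]
    have e1 : (Matrix.vandermonde w).det < 0 ↔ ¬ 0 < (Matrix.vandermonde w).det := by
      rw [not_lt]
      exact ⟨le_of_lt, fun h => lt_of_le_of_ne h h2⟩
    have e2 : (Matrix.vandermonde w').det < 0 ↔ ¬ 0 < (Matrix.vandermonde w').det := by
      rw [not_lt]
      exact ⟨le_of_lt, fun h => lt_of_le_of_ne h h3⟩
    rw [e1, e2]
    tauto

lemma pos_swap {n : ℕ} {w : Fin n → ℝ} (hw : Injective w) {i j : Fin n} (hij : i ≠ j) :
    pos (w ∘ Equiv.swap i j) ↔ ¬ pos w := by
  have h1 : (Matrix.vandermonde (w ∘ Equiv.swap i j)).det =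
      - (Matrix.vandermonde w).det := by
    have := Matrix.det_permute (Equiv.swap i j) (Matrix.vandermonde w)
    rw [Equiv.Perm.sign_swap hij] at this
    simp only [Units.val_neg, Units.val_one, Int.cast_neg, Int.cast_one, neg_mul, one_mul] at this
    rw [← this]; rfl
  have h2 : (Matrix.vandermonde w).det ≠ 0 := Matrix.det_vandermonde_ne_zero_iff.2 hw
  unfold pos
  rw [h1, Left.neg_pos_iff, not_lt]
  exact ⟨le_of_lt, fun h => lt_of_le_of_ne h h2⟩

lemma measurableSet_pos (n : ℕ) : MeasurableSet {w : Fin n → ℝ | pos w} := by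
  have : Continuous (fun w : Fin n → ℝ => (Matrix.vandermonde w).det) := by
    simp only [Matrix.det_vandermonde]
    fun_prop
  exact measurableSet_lt measurable_const this.measurable

/-- The singleton coordinate. -/
def single {V : Type} (v : V) : NF V := ⟨{v}, Finset.singleton_nonempty v⟩

/-- The full coordinate. -/
def full {n : ℕ} (hn : 0 < n) : NF (Fin n) :=
  ⟨Finset.univ, by
    have : NeZero n := ⟨hn.ne'⟩
    exact Finset.univ_nonempty⟩

lemma push_single {V W : Type} [DecidableEq W] (α : V → W) (v : V) :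
    push α (single v) = single (α v) := by
  apply Subtype.ext
  simp [push, single]

lemma lev_single {V : Type} (v : V) : lev (single v) = 1 := by
  apply PNat.eq
  simp [lev, single]

lemma lev_full {n : ℕ} (hn : 0 < n) : ((lev (full hn) : ℕ+) : ℕ) = n := by
  simp [lev, full]

lemma lev_push {V W : Type} [DecidableEq W] {α : V → W} (hα : Injective α) (A : NF V) :
    lev (push α A) = lev A := by
  apply PNat.eq
  simp [lev, push, Finset.card_image_of_injective _ hα]

lemma eq_full {n : ℕ} (hn : 0 < n) (A : NF (Fin n)) (h : n ≤ (lev A : ℕ)) : A = full hn := by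
  apply Subtype.ext
  have : A.1.card = n := le_antisymm (by simpa using Finset.card_le_univ A.1) h
  have : A.1 = Finset.univ := by
    apply Finset.eq_univ_of_card
    simpa using this
  exact this

lemma push_full_comp {n : ℕ} (hn : 0 < n) (α : Fin n → ℕ+) (σ : Equiv.Perm (Fin n)) :
    push (α ∘ σ) (full hn) = push α (full hn) := by
  apply Subtype.ext
  ext x
  simp only [push, full, Finset.mem_image, Finset.mem_univ, true_and, comp_apply]
  constructor
  · rintro ⟨a, ha⟩; exact ⟨σ a, ha⟩
  · rintro ⟨a, ha⟩; exact ⟨σ.symm a, by simpa using ha⟩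

lemma exists_perm {n : ℕ} (hn : 0 < n) {α β : Fin n → ℕ+} (hα : Injective α) (hβ : Injective β)
    (h : push α (full hn) = push β (full hn)) : ∃ σ : Equiv.Perm (Fin n), β = α ∘ σ := by
  have h' : Finset.univ.image α = Finset.univ.image β := congrArg Subtype.val h
  have hr : range α = range β := by
    have := congrArg (fun s : Finset ℕ+ => (s : Set ℕ+)) h'
    simpa using this
  refine ⟨(Equiv.ofInjective β hβ).trans
    ((Equiv.setCongr hr.symm).trans (Equiv.ofInjective α hα).symm), ?_⟩
  funext i
  simp [Equiv.apply_ofInjective_symm hα]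

variable {X : Type*} [MeasurableSpace X]

/-- The peon structure of the random orientation. -/
def orient (n : ℕ) (hn : 0 < n) (f : X → ℝ) (hf : Measurable f) (S : Set X)
    (hS : MeasurableSet S) : Euclidean (oneRel n) X where
  peon {m} P := {x | pos (fun i => f (x (single i))) ↔ x (full (P.down.symm ▸ hn)) ∈ S}
  measurableSet_peon {m} P := by
    have h1 : MeasurableSet {x : NF (Fin m) → X | pos (fun i => f (x (single i)))} := by
      have : Measurable (fun (x : NF (Fin m) → X) (i : Fin m) => f (x (single i))) :=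
        measurable_pi_lambda _ fun i => hf.comp (measurable_pi_apply _)
      exact this (measurableSet_pos m)
    have h2 : MeasurableSet {x : NF (Fin m) → X | x (full (P.down.symm ▸ hn)) ∈ S} :=
      measurable_pi_apply _ hS
    exact measurableSet_setOfPred.2 ((measurableSet_setOfPred.1 h1).iff (measurableSet_setOfPred.1 h2))

lemma orient_array {n : ℕ} (hn : 0 < n) (f : X → ℝ) (hf : Measurable f) (S : Set X)
    (hS : MeasurableSet S) (θ : NF ℕ+ → X) (α : Fin n → ℕ+) :
    (orient n hn f hf S hS).array θ ⟨n, ⟨rfl⟩, α⟩ ↔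
      Injective α ∧ (pos (fun i => f (θ (single (α i)))) ↔ θ (push α (full hn)) ∈ S) := by
  simp only [Euclidean.array, orient, mem_ofPred_eq, push_single]

end Pool.Agent.Lib.MP_1d1228_co
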