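import Pool.Agent.Lib.MP_1d1228_co.Facts
import Pool.Agent.Lib.MP_1d1228_co.Merge

/-!
The case `B = ℕ₊`: an array independent of all coordinates is deterministic.
-/

open MeasureTheory ProbabilityTheory Set Function MeasurableSpace

namespace Pool.Agent.Lib.MP_1d1228_co

variable {L : FirstOrder.Language.{0, 0}} {X : Type*} [MeasurableSpace X]

instance (μ : Measure X) [IsProbabilityMeasure μ] : IsProbabilityMeasure (iid μ) := by
  unfold iid; infer_instance

lemma push_injective {V W : Type} [DecidableEq W] {α : V → W} (hα : Injective α) :
    Injective (push α) := by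
  intro A B h
  have : A.1.image α = B.1.image α := congrArg Subtype.val h
  exact Subtype.ext (Finset.image_injective hα this)

lemma iid_pull (μ : Measure X) [IsProbabilityMeasure μ] {k : ℕ} {α : Fin k → ℕ+}
    (hα : Injective α) :
    (iid μ).map (fun (θ : NF ℕ+ → X) (A : NF (Fin k)) => θ (push α A)) =
      Measure.infinitePi (fun _ : NF (Fin k) => μ) :=
  map_comp_inj μ (push α) (push_injective hα)

open Classical in
/-- The Euclidean structure with trivial peons, obtained by rounding. -/
noncomputable def roundOff (N : Euclidean L X) (μ : Measure X) : Euclidean L X where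
  peon {k} P := if Measure.infinitePi (fun _ : NF (Fin k) => μ) (N.peon P) = 0 then ∅ else univ
  measurableSet_peon {k} P := by
    by_cases h : Measure.infinitePi (fun _ : NF (Fin k) => μ) (N.peon P) = 0
    · simp [h]
    · simp [h]

theorem compatible_of_weak_univ [L.IsRelational] [Finite (Σ k, L.Relations k)]
    (μ : Measure X) [IsProbabilityMeasure μ] (T : L.Theory) (φ : Measure (Str L))
    (h : WeaklyCompatibleCompl μ T univ φ) : Compatible μ T univᶜ φ := by
  obtain ⟨N, hOn, hRep, hind⟩ := h
  have hae : N.array =ᵐ[iid μ] (roundOff N μ).array := by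
    have hcount : Countable (Σ k : ℕ, L.Relations k × (Fin k → ℕ+)) := by
      have : Countable (Σ k, L.Relations k) := Finite.to_countable
      have : ∀ k, Countable (L.Relations k) := fun k =>
        (sigma_mk_injective (β := fun k => L.Relations k) (i := k)).countable
      infer_instance
    have key : ∀ a : (Σ k : ℕ, L.Relations k × (Fin k → ℕ+)),
        ∀ᵐ θ ∂(iid μ), N.array θ a = (roundOff N μ).array θ a := by
      rintro ⟨k, P, α⟩
      by_cases hα : Injective α
      swap
      · refine Filter.Eventually.of_forall fun θ => ?_
        simp [Euclidean.array, hα]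
      have hm := measurable_pushPull (X := X) α
      set E : Set (NF ℕ+ → X) := {θ | N.array θ ⟨k, P, α⟩} with hE
      have hE1 : E = (fun (θ : NF ℕ+ → X) (A : NF (Fin k)) => θ (push α A)) ⁻¹' (N.peon P) := by
        ext θ
        simp [hE, Euclidean.array, hα]
      have hq : iid μ E = Measure.infinitePi (fun _ : NF (Fin k) => μ) (N.peon P) := by
        rw [hE1, ← iid_pull μ hα, Measure.map_apply hm (N.measurableSet_peon P)]
      have hE2 : E = N.array ⁻¹' {M | M ⟨k, P, α⟩} := rfl
      have hmc : MeasurableSet {M : Str L | M ⟨k, P, α⟩} :=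
        measurableSet_setOfPred.2 (measurable_pi_apply _)
      have hE3 : E = (fun (θ : NF ℕ+ → X) (A : {A : NF ℕ+ // lev A ∈ (univ : Set ℕ+)}) => θ A.1) ⁻¹'
          {ω | (fun A : NF (Fin k) => ω ⟨push α A, mem_univ _⟩) ∈ N.peon P} := by
        rw [hE1]; rfl
      have hmc3 : MeasurableSet {ω : {A : NF ℕ+ // lev A ∈ (univ : Set ℕ+)} → X |
          (fun A : NF (Fin k) => ω ⟨push α A, mem_univ _⟩) ∈ N.peon P} := by
        have : Measurable (fun (ω : {A : NF ℕ+ // lev A ∈ (univ : Set ℕ+)} → X)
            (A : NF (Fin k)) => ω ⟨push α A, mem_univ _⟩) :=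
          measurable_pi_lambda _ fun _ => measurable_pi_apply _
        exact this (N.measurableSet_peon P)
      have hI := hind.measure_inter_preimage_eq_mul _ _ hmc hmc3
      rw [← hE2, ← hE3, inter_self] at hI
      have h01 : iid μ E = 0 ∨ iid μ E = 1 := by
        by_cases h0 : iid μ E = 0
        · exact Or.inl h0
        · right
          have hfin : iid μ E ≠ ⊤ := measure_ne_top _ _
          have := (ENNReal.mul_right_inj h0 hfin).1 (show iid μ E * iid μ E = iid μ E * 1 by
            rw [mul_one]; exact hI.symm)
          exact this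
      rcases h01 with h0 | h1
      · have : ∀ᵐ θ ∂(iid μ), θ ∉ E := by
          rw [ae_iff]; simpa using h0
        filter_upwards [this] with θ hθ
        have hθ' : ¬ N.array θ ⟨k, P, α⟩ := hθ
        have : ¬ (roundOff N μ).array θ ⟨k, P, α⟩ := by
          simp only [Euclidean.array, roundOff, not_and]
          intro _
          rw [if_pos (hq ▸ h0)]
          simp
        simp [hθ', this]
      · have : ∀ᵐ θ ∂(iid μ), θ ∈ E := by
          have hEm : MeasurableSet E := by
            rw [hE1]; exact hm (N.measurableSet_peon P)
          exact (prob_compl_eq_zero_iff hEm).2 h1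
        filter_upwards [this] with θ hθ
        have hθ' : N.array θ ⟨k, P, α⟩ := hθ
        have : (roundOff N μ).array θ ⟨k, P, α⟩ := by
          simp only [Euclidean.array, roundOff]
          refine ⟨hα, ?_⟩
          rw [if_neg]
          · trivial
          · rw [← hq, h1]; exact one_ne_zero
        simp [hθ', this]
    filter_upwards [ae_all_iff.2 key] with θ hθ
    funext a
    exact hθ a
  have hRep' : (roundOff N μ).Represents μ φ := by
    unfold Euclidean.Represents
    rw [← Measure.map_congr hae]
    exact hRep
  refine ⟨roundOff N μ, hOn.of_represents hRep hRep', hRep', fun k P x y _ => ?_⟩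
  simp only [roundOff]
  split_ifs <;> simp

end Pool.Agent.Lib.MP_1d1228_co
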