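import Pool.Agent.Lib.MP_1d1228_co.Bits

/-!
The case `1 ∉ B`: weak compatibility implies compatibility.
-/

open MeasureTheory ProbabilityTheory Set Function MeasurableSpace Filter
open scoped ENNReal

namespace Pool.Agent.Lib.MP_1d1228_co

variable {X : Type*} [MeasurableSpace X]

lemma map_curry_pointwise {J K : Type*} {Y : Type*} [MeasurableSpace Y] (ν : Measure Y)
    [IsProbabilityMeasure ν] (μ : Measure X) [IsProbabilityMeasure μ] {z : X → K → Y}
    (hz : Measurable z) (hlaw : μ.map z = Measure.infinitePi (fun _ : K => ν)) :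
    (Measure.infinitePi (fun _ : J => μ)).map (fun ω (p : J × K) => z (ω p.1) p.2) =
      Measure.infinitePi (fun _ : J × K => ν) := by
  have h1 := map_pointwise (J := J) μ z hz
  rw [hlaw] at h1
  have h2 := Measure.infinitePi_map_curry_symm (ι := J) (κ := K) (X := Y) (fun _ _ => ν)
  have hm : Measurable (fun (ω : J → X) (j : J) => z (ω j)) :=
    measurable_pi_lambda _ fun j => hz.comp (measurable_pi_apply j)
  rw [← h2, ← h1, Measure.map_map (by fun_prop) hm]
  rfl

lemma map_pointwise_curry {J K : Type*} {Y : Type*} [MeasurableSpace Y] (ν : Measure Y)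
    [IsProbabilityMeasure ν] (μ : Measure X) [IsProbabilityMeasure μ] {F : (K → Y) → X}
    (hF : Measurable F) (hlaw : (Measure.infinitePi (fun _ : K => ν)).map F = μ) :
    (Measure.infinitePi (fun _ : J × K => ν)).map (fun β (j : J) => F (fun r => β (j, r))) =
      Measure.infinitePi (fun _ : J => μ) := by
  have h2 := Measure.infinitePi_map_curry (ι := J) (κ := K) (X := Y) (fun _ _ => ν)
  have h1 := map_pointwise (J := J) (Measure.infinitePi (fun _ : K => ν)) F hF
  have hm : Measurable (fun (θ : J → K → Y) (j : J) => F (θ j)) :=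
    measurable_pi_lambda _ fun j => hF.comp (measurable_pi_apply j)
  rw [hlaw, ← h2, Measure.map_map hm (by fun_prop)] at h1
  exact h1

/-- One i.i.d. family can be split into two independent ones. -/
lemma map_split {J : Type*} (μ : Measure X) [IsProbabilityMeasure μ] {h : X → Bool → X}
    (hm : Measurable h) (hlaw : μ.map h = Measure.infinitePi (fun _ : Bool => μ)) :
    (Measure.infinitePi (fun _ : J => μ)).map
      (fun ω => ((fun j => h (ω j) false), (fun j => h (ω j) true))) =
      (Measure.infinitePi (fun _ : J => μ)).prod (Measure.infinitePi (fun _ : J => μ)) := by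
  have h1 := map_curry_pointwise (J := J) μ μ hm hlaw
  have h3 := map_merge (J1 := J) (J2 := J) (J := J × Bool) μ
    (fun q => if q.2 then Sum.inr q.1 else Sum.inl q.1) (by
      rintro ⟨j, b⟩ ⟨j', b'⟩ h
      cases b <;> cases b' <;> simp_all)
  let read : (J × Bool → X) → (J → X) × (J → X) :=
    fun w => ((fun j => w (j, false)), (fun j => w (j, true)))
  have hread : Measurable read :=
    (measurable_pi_lambda _ fun j => measurable_pi_apply _).prodMk
      (measurable_pi_lambda _ fun j => measurable_pi_apply _)
  have hm1 : Measurable (fun (ω : J → X) (p : J × Bool) => h (ω p.1) p.2) :=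
    measurable_pi_lambda _ fun p =>
      (measurable_pi_apply p.2).comp (hm.comp (measurable_pi_apply p.1))
  have hm3 : Measurable (fun (p : (J → X) × (J → X)) (q : J × Bool) =>
      Sum.elim p.1 p.2 (if q.2 then Sum.inr q.1 else Sum.inl q.1 : J ⊕ J)) := by
    refine measurable_pi_lambda _ fun q => ?_
    rcases q with ⟨j, b⟩
    cases b
    · exact (measurable_pi_apply j).comp measurable_fst
    · exact (measurable_pi_apply j).comp measurable_snd
  have e1 : (Measure.infinitePi (fun _ : J × Bool => μ)).map read =
      (Measure.infinitePi (fun _ : J => μ)).map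
      (fun ω => ((fun j => h (ω j) false), (fun j => h (ω j) true))) := by
    rw [← h1, Measure.map_map hread hm1]
    rfl
  have e2 : (Measure.infinitePi (fun _ : J × Bool => μ)).map read =
      (Measure.infinitePi (fun _ : J => μ)).prod (Measure.infinitePi (fun _ : J => μ)) := by
    rw [← h3, Measure.map_map hread hm3]
    exact Measure.map_id
  rw [← e1, e2]

lemma single_injective {V : Type} : Injective (single : V → NF V) := by
  intro v w h
  have := congrArg Subtype.val h
  simpa [single] using this

/-- The substitute for the coordinates at the levels in `B`, as a function of the extra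
randomness at the vertices. -/
def subst (F : (ℕ → Prop) → X) (h : X → Bool → X) (u₀ : X → ℝ) (z₀ : X → Place → Prop)
    {V : Type} (y : NF V → X) (A : NF V) : X :=
  F (bitsOf (fun v => u₀ (h (y (single v)) false)) (fun v => z₀ (h (y (single v)) true)) A)

lemma measurable_subst {F : (ℕ → Prop) → X} (hF : Measurable F) {h : X → Bool → X}
    (hh : Measurable h) {u₀ : X → ℝ} (hu : Measurable u₀) {z₀ : X → Place → Prop}
    (hz : Measurable z₀) {V : Type} :
    Measurable (fun y : NF V → X => subst F h u₀ z₀ y) := by
  refine measurable_pi_lambda _ fun A => ?_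
  unfold subst
  refine hF.comp ((measurable_bitsOf A).comp (Measurable.prodMk ?_ ?_))
  · exact measurable_pi_lambda _ fun v => hu.comp
      ((measurable_pi_apply false).comp (hh.comp (measurable_pi_apply _)))
  · exact measurable_pi_lambda _ fun v => hz.comp
      ((measurable_pi_apply true).comp (hh.comp (measurable_pi_apply _)))

/-- Finite marginals of the substitute are absolutely continuous. -/
lemma subst_null (μ : Measure X) [IsProbabilityMeasure μ] [NullSingletonClass μ]
    {F : (ℕ → Prop) → X} (hF : Measurable F)
    (hFlaw : (Measure.infinitePi (fun _ : ℕ => coin)).map F = μ)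
    {h : X → Bool → X} (hh : Measurable h)
    (hlaw : μ.map h = Measure.infinitePi (fun _ : Bool => μ))
    {u₀ : X → ℝ} (hu : Measurable u₀) (huinj : Injective u₀) {z₀ : X → Place → Prop}
    (hz : Measurable z₀) (hzlaw : μ.map z₀ = Measure.infinitePi (fun _ : Place => coin))
    {ι : Type} [Finite ι] (a : ι → NF ℕ+) (ha : Injective a) (Q : Set (ι → X))
    (hQ : MeasurableSet Q) (h0 : Measure.infinitePi (fun _ : ι => μ) Q = 0) :
    iid μ {y | (fun i => subst F h u₀ z₀ y (a i)) ∈ Q} = 0 := by
  -- pull back to bits
  set Q2 : Set (ι × ℕ → Prop) := {β | (fun i => F (fun r => β (i, r))) ∈ Q} with hQ2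
  have hmF : Measurable (fun (β : ι × ℕ → Prop) (i : ι) => F (fun r => β (i, r))) :=
    measurable_pi_lambda _ fun i => hF.comp (measurable_pi_lambda _ fun r => measurable_pi_apply _)
  have hQ2m : MeasurableSet Q2 := hmF hQ
  have hQ20 : Measure.infinitePi (fun _ : ι × ℕ => coin) Q2 = 0 := by
    have := map_pointwise_curry (J := ι) coin μ hF hFlaw
    rw [← this, Measure.map_apply hmF hQ] at h0
    exact h0
  -- split the side randomness
  let M : Set ((NF ℕ+ → X) × (NF ℕ+ → X)) := {p | (fun i => F (bitsOf
    (fun v => u₀ (p.1 (single v))) (fun v => z₀ (p.2 (single v))) (a i))) ∈ Q}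
  have hM : MeasurableSet M := by
    have : Measurable (fun (p : (NF ℕ+ → X) × (NF ℕ+ → X)) (i : ι) => F (bitsOf
        (fun v => u₀ (p.1 (single v))) (fun v => z₀ (p.2 (single v))) (a i))) := by
      refine measurable_pi_lambda _ fun i => hF.comp ((measurable_bitsOf (a i)).comp
        (Measurable.prodMk ?_ ?_))
      · exact measurable_pi_lambda _ fun v =>
          hu.comp ((measurable_pi_apply _).comp measurable_fst)
      · exact measurable_pi_lambda _ fun v =>
          hz.comp ((measurable_pi_apply _).comp measurable_snd)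
    exact this hQ
  have hsplit := map_split (J := NF ℕ+) μ hh hlaw
  have hms : Measurable (fun ω : NF ℕ+ → X =>
      ((fun j => h (ω j) false), (fun j => h (ω j) true))) :=
    (measurable_pi_lambda _ fun j => (measurable_pi_apply false).comp
      (hh.comp (measurable_pi_apply j))).prodMk
      (measurable_pi_lambda _ fun j => (measurable_pi_apply true).comp
      (hh.comp (measurable_pi_apply j)))
  have e1 : {y | (fun i => subst F h u₀ z₀ y (a i)) ∈ Q} =
      (fun ω : NF ℕ+ → X => ((fun j => h (ω j) false), (fun j => h (ω j) true))) ⁻¹' M := rfl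
  unfold iid
  rw [e1, ← Measure.map_apply hms hM, hsplit, Measure.measure_prod_null hM]
  have hinj := ae_injective μ u₀ hu huinj
  unfold iid at hinj
  filter_upwards [hinj] with p hp
  -- law of the table
  have hs := map_comp_inj (J := ℕ+) μ (single : ℕ+ → NF ℕ+) single_injective
  have ht := map_curry_pointwise (J := ℕ+) coin μ hz hzlaw
  have hmt : Measurable (fun (ω : ℕ+ → X) (q : ℕ+ × Place) => z₀ (ω q.1) q.2) :=
    measurable_pi_lambda _ fun q =>
      (measurable_pi_apply q.2).comp (hz.comp (measurable_pi_apply q.1))
  have hmr : Measurable (fun (θ : NF ℕ+ → X) (v : ℕ+) => θ (single v)) :=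
    measurable_pi_lambda _ fun v => measurable_pi_apply _
  rw [← hs, Measure.map_map hmt hmr] at ht
  have hnull := null_bits a ha (fun v => u₀ (p (single v))) hp Q2 hQ2m hQ20
  have hmeas : MeasurableSet {z : ℕ+ × Place → Prop | (fun q : ι × ℕ =>
      bitsOf (fun v => u₀ (p (single v))) (fun v q => z (v, q)) (a q.1) q.2) ∈ Q2} := by
    have : Measurable (fun (z : ℕ+ × Place → Prop) (q : ι × ℕ) =>
        bitsOf (fun v => u₀ (p (single v))) (fun v q => z (v, q)) (a q.1) q.2) := by
      have h3 : Measurable (fun z : ℕ+ × Place → Prop =>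
          ((fun v : ℕ+ => u₀ (p (single v))), (fun (v : ℕ+) (q : Place) => z (v, q)))) :=
        measurable_const.prodMk
          (measurable_pi_lambda _ fun v => measurable_pi_lambda _ fun q => measurable_pi_apply _)
      exact measurable_pi_lambda _ fun q => (measurable_pi_apply q.2).comp
        ((measurable_bitsOf (a q.1)).comp h3)
    exact this hQ2m
  rw [← ht, Measure.map_apply (hmt.comp hmr) hmeas] at hnull
  exact hnull

section main

variable {L : FirstOrder.Language.{0, 0}}

/-- Almost every value of the `B`-coordinates gives the same conditional probability. -/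
lemma ae_const (N : Euclidean L X) (μ : Measure X) [IsProbabilityMeasure μ] (B : Set ℕ+)
    (hind : IndepFun N.array (fun (θ : NF ℕ+ → X) (A : {A : NF ℕ+ // lev A ∈ B}) => θ A.1)
      (iid μ)) (E : Set (Str L)) (hE : MeasurableSet E) :
    ∀ᵐ t ∂(iid μ), iid μ {θ | N.array (mix B θ t) ∈ E} = iid μ (N.array ⁻¹' E) := by
  classical
  have hne : Nonempty X := μ.nonempty_of_neZero
  obtain ⟨x0⟩ := hne
  set restr := (fun (θ : NF ℕ+ → X) (A : {A : NF ℕ+ // lev A ∈ B}) => θ A.1) with hrestr
  have hr : Measurable restr := measurable_pi_lambda _ fun _ => measurable_pi_apply _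
  let ext : ({A : NF ℕ+ // lev A ∈ B} → X) → (NF ℕ+ → X) :=
    fun τ A => if hA : lev A ∈ B then τ ⟨A, hA⟩ else x0
  have hext : Measurable ext := by
    refine measurable_pi_lambda _ fun A => ?_
    by_cases hA : lev A ∈ B
    · simp only [ext, hA, dif_pos]; exact measurable_pi_apply _
    · simp only [ext, hA, dif_neg, not_false_eq_true]; exact measurable_const
  let M : Set ((NF ℕ+ → X) × (NF ℕ+ → X)) := {p | N.array (mix B p.1 p.2) ∈ E}
  have hM : MeasurableSet M := N.measurable_array.comp (measurable_mix B) hE
  let q : (NF ℕ+ → X) → ℝ≥0∞ := fun t => iid μ ((fun θ => (θ, t)) ⁻¹' M)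
  have hq : Measurable q := measurable_measure_prodMk_right hM
  have hqr : ∀ t, q (ext (restr t)) = q t := by
    intro t
    have : ∀ θ, mix B θ (ext (restr t)) = mix B θ t := by
      intro θ; funext A
      by_cases hA : lev A ∈ B <;> simp [mix, ext, restr, hA]
    simp only [q, M, preimage_ofPred_eq, this]
  have hset : ∀ T : Set ({A : NF ℕ+ // lev A ∈ B} → X), MeasurableSet T →
      ∫⁻ τ in T, q (ext τ) ∂((iid μ).map restr) =
        ∫⁻ τ in T, iid μ (N.array ⁻¹' E) ∂((iid μ).map restr) := by
    intro T hT
    have e0 := setLIntegral_map (μ := iid μ) hT (hq.comp hext) hr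
    simp only [comp_apply, hqr] at e0
    rw [setLIntegral_const, e0]
    have hm2 : MeasurableSet (N.array ⁻¹' E ∩ restr ⁻¹' T) :=
      (N.measurable_array hE).inter (hr hT)
    have e1 := hind.measure_inter_preimage_eq_mul _ _ hE hT
    have e2 : iid μ (N.array ⁻¹' E ∩ restr ⁻¹' T) = ∫⁻ t in restr ⁻¹' T, q t ∂(iid μ) := by
      conv_lhs => rw [← map_mix μ B]
      rw [Measure.map_apply (measurable_mix B) hm2, Measure.prod_apply_symm (measurable_mix B hm2),
        ← lintegral_indicator (hr hT)]
      refine lintegral_congr fun t => ?_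
      have hrt : ∀ θ : NF ℕ+ → X, restr (mix B θ t) = restr t := by
        intro θ; funext A
        simp [mix, restr, A.2]
      by_cases hT' : t ∈ restr ⁻¹' T
      · rw [indicator_of_mem hT']
        simp only [q]
        congr 1
        ext θ
        simp only [mem_preimage, mem_inter_iff, hrt, M, mem_ofPred_eq]
        simp only [mem_preimage] at hT'
        tauto
      · rw [indicator_of_notMem hT', measure_eq_zero_iff_ae_notMem]
        refine Filter.Eventually.of_forall fun θ hθ => ?_
        simp only [mem_preimage, mem_inter_iff, hrt] at hθ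
        exact hT' hθ.2
    rw [← e2, e1, Measure.map_apply hr hT]
  have hprob : IsProbabilityMeasure ((iid μ).map restr) :=
    Measure.isProbabilityMeasure_map hr.aemeasurable
  have hae : (fun τ => q (ext τ)) =ᵐ[(iid μ).map restr] fun _ => iid μ (N.array ⁻¹' E) :=
    ae_eq_of_forall_setLIntegral_eq_of_sigmaFinite (hq.comp hext) measurable_const
      (fun T hT _ => hset T hT)
  have := ae_of_ae_map hr.aemeasurable hae
  filter_upwards [this] with t ht
  rw [← ht, hqr]
  rfl

end main

end Pool.Agent.Lib.MP_1d1228_co
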