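import Pool.Agent.Lib.MP_1d1228_co.Orient

/-!
The random orientation is weakly compatible but not compatible.
-/

open MeasureTheory ProbabilityTheory Set Function MeasurableSpace

namespace Pool.Agent.Lib.MP_1d1228_co

variable {X : Type*} [MeasurableSpace X]

/-- The correction at the coordinate `A`. -/
def corr {n : ℕ} (hn : 0 < n) (f : X → ℝ) (t : NF ℕ+ → X) (A : NF ℕ+) : Prop :=
  ∃ α : Fin n → ℕ+, Injective α ∧ push α (full hn) = A ∧
    (pos (fun i => f (t (single (α i)))) ↔ pos (fun i => ((α i : ℕ) : ℝ)))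

lemma corr_iff {n : ℕ} (hn : 0 < n) (f : X → ℝ) (t : NF ℕ+ → X)
    (ht : Injective (fun v : ℕ+ => f (t (single v)))) {α : Fin n → ℕ+} (hα : Injective α) :
    corr hn f t (push α (full hn)) ↔
      (pos (fun i => f (t (single (α i)))) ↔ pos (fun i => ((α i : ℕ) : ℝ))) := by
  constructor
  · rintro ⟨β, hβ, hβα, h⟩
    obtain ⟨σ, rfl⟩ := exists_perm hn hα hβ hβα.symm
    have hw : Injective (fun i => f (t (single (α i)))) := fun i j hij => hα (ht hij)
    have hw' : Injective (fun i => ((α i : ℕ) : ℝ)) := fun i j hij => hα (by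
      have h2 : ((α i : ℕ) : ℝ) = ((α j : ℕ) : ℝ) := hij
      exact PNat.eq (Nat.cast_injective h2))
    exact (pos_comp hw hw' σ).1 h
  · intro h
    exact ⟨α, hα, rfl, h⟩

/-- The array as a function of the coins. -/
def coinArray {n : ℕ} (hn : 0 < n) (b : NF ℕ+ → Prop) : Str (oneRel n) :=
  fun a => Injective a.2.2 ∧ (pos (fun i => ((a.2.2 i : ℕ) : ℝ)) ↔
    b (push a.2.2 (full (a.2.1.down.symm ▸ hn))))

lemma measurable_coinArray {n : ℕ} (hn : 0 < n) : Measurable (coinArray hn) := by
  refine measurable_pi_lambda _ fun a => ?_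
  unfold coinArray
  refine measurableSet_setOfPred.1 ?_
  have h1 : Measurable (fun b : NF ℕ+ → Prop => b (push a.2.2 (full (a.2.1.down.symm ▸ hn)))) :=
    measurable_pi_apply _
  have h2 : Measurable (fun _ : NF ℕ+ → Prop => pos (fun i => ((a.2.2 i : ℕ) : ℝ))) :=
    measurable_const
  have h3 : Measurable (fun _ : NF ℕ+ → Prop => Injective a.2.2) := measurable_const
  exact measurableSet_setOfPred.2 (h3.and (h2.iff h1))

lemma array_eq_coinArray {n : ℕ} (hn : 0 < n) (f : X → ℝ) (hf : Measurable f) (S : Set X)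
    (hS : MeasurableSet S) (θ : NF ℕ+ → X)
    (ht : Injective (fun v : ℕ+ => f (θ (single v)))) :
    (orient n hn f hf S hS).array θ = coinArray hn (fun A => (corr hn f θ A ↔ θ A ∈ S)) := by
  funext a
  obtain ⟨m, ⟨hm⟩, α⟩ := a
  subst hm
  refine propext ?_
  refine (orient_array hn f hf S hS θ α).trans ?_
  unfold coinArray
  simp only
  constructor
  · rintro ⟨hα, h⟩
    refine ⟨hα, ?_⟩
    rw [corr_iff hn f θ ht hα]
    tauto
  · rintro ⟨hα, h⟩
    refine ⟨hα, ?_⟩
    rw [corr_iff hn f θ ht hα] at h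
    tauto

lemma ae_injective (μ : Measure X) [IsProbabilityMeasure μ] [NullSingletonClass μ]
    (f : X → ℝ) (hfm : Measurable f) (hf : Injective f) :
    ∀ᵐ t ∂(iid μ), Injective (fun v : ℕ+ => f (t (single v))) := by
  have h : ∀ v w : ℕ+, v ≠ w → ∀ᵐ t ∂(iid μ), t (single v) ≠ t (single w) := by
    intro v w hvw
    have hne : (single v : NF ℕ+) ≠ single w := by
      intro h
      have := congrArg Subtype.val h
      simp [single] at this
      exact hvw this
    have hmap := Measure.infinitePi_map_eval_prod (P := fun _ : NF ℕ+ => μ) hne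
    have hd : MeasurableSet {p : X × X | p.1 = p.2} := by
      have : {p : X × X | p.1 = p.2} = {p : X × X | f p.1 = f p.2} := by
        ext p; exact ⟨fun h => congrArg f h, fun h => hf h⟩
      rw [this]
      exact measurableSet_eq_fun (hfm.comp measurable_fst) (hfm.comp measurable_snd)
    have h0 : (μ.prod μ) {p : X × X | p.1 = p.2} = 0 := by
      rw [Measure.measure_prod_null hd]
      refine Filter.Eventually.of_forall fun x => ?_
      have : (Prod.mk x ⁻¹' {p : X × X | p.1 = p.2}) = {x} := by
        ext y; simp [eq_comm]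
      change μ (Prod.mk x ⁻¹' {p : X × X | p.1 = p.2}) = 0
      rw [this]; simp
    rw [← hmap, Measure.map_apply (by fun_prop) hd] at h0
    rw [ae_iff]
    simpa [iid] using h0
  have h' : ∀ᵐ t ∂(iid μ), ∀ v w : ℕ+, v ≠ w → t (single v) ≠ t (single w) := by
    rw [ae_all_iff]; intro v
    rw [ae_all_iff]; intro w
    by_cases hvw : v = w
    · exact Filter.Eventually.of_forall fun t hne => absurd hvw hne
    · filter_upwards [h v w hvw] with t ht _
      exact ht
  filter_upwards [h'] with t ht v w hvw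
  by_contra hne
  exact ht v w hne (hf hvw)

/-- A fair coin is invariant under a deterministic flip. -/
lemma coin_flip (μ : Measure X) [IsProbabilityMeasure μ] (S : Set X) (hS : MeasurableSet S)
    (hhalf : μ S = μ Sᶜ) (c : Prop) :
    μ.map (fun x => (c ↔ x ∈ S)) = μ.map (fun x => x ∈ S) := by
  have hm1 : Measurable (fun x => x ∈ S) := measurableSet_setOfPred.1 hS
  by_cases hc : c
  · simp only [hc, true_iff]
  · simp only [hc, false_iff]
    have hm2 : Measurable (fun x => x ∉ S) := measurableSet_setOfPred.1 hS.compl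
    ext A hA
    rw [Measure.map_apply hm2 hA, Measure.map_apply hm1 hA]
    by_cases hT : True ∈ A <;> by_cases hF : False ∈ A
    · have e1 : ((fun x => x ∉ S) ⁻¹' A) = univ := by
        ext x; by_cases hx : x ∈ S <;> simp [hx, hT, hF]
      have e2 : ((fun x => x ∈ S) ⁻¹' A) = univ := by
        ext x; by_cases hx : x ∈ S <;> simp [hx, hT, hF]
      rw [e1, e2]
    · have e1 : ((fun x => x ∉ S) ⁻¹' A) = Sᶜ := by
        ext x; by_cases hx : x ∈ S <;> simp [hx, hT, hF]
      have e2 : ((fun x => x ∈ S) ⁻¹' A) = S := by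
        ext x; by_cases hx : x ∈ S <;> simp [hx, hT, hF]
      rw [e1, e2, hhalf]
    · have e1 : ((fun x => x ∉ S) ⁻¹' A) = S := by
        ext x; by_cases hx : x ∈ S <;> simp [hx, hT, hF]
      have e2 : ((fun x => x ∈ S) ⁻¹' A) = Sᶜ := by
        ext x; by_cases hx : x ∈ S <;> simp [hx, hT, hF]
      rw [e1, e2, hhalf]
    · have e1 : ((fun x => x ∉ S) ⁻¹' A) = ∅ := by
        ext x; by_cases hx : x ∈ S <;> simp [hx, hT, hF]
      have e2 : ((fun x => x ∈ S) ⁻¹' A) = ∅ := by
        ext x; by_cases hx : x ∈ S <;> simp [hx, hT, hF]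
      rw [e1, e2]

theorem orient_weak {n : ℕ} (hn : 0 < n) (f : X → ℝ) (hf : Measurable f) (hinj : Injective f)
    (S : Set X) (hS : MeasurableSet S)
    (μ : Measure X) [IsProbabilityMeasure μ] [NullSingletonClass μ] (hhalf : μ S = μ Sᶜ)
    (B : Set ℕ+) (h1B : 1 ∈ B) (hnB : (⟨n, hn⟩ : ℕ+) ∉ B) :
    IndepFun (orient n hn f hf S hS).array
      (fun (θ : NF ℕ+ → X) (A : {A : NF ℕ+ // lev A ∈ B}) => θ A.1) (iid μ) := by
  refine indep_of_const_law _ μ B
    ((Measure.infinitePi (fun _ : NF ℕ+ => μ.map (fun x => x ∈ S))).map (coinArray hn)) ?_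
  filter_upwards [ae_injective μ f hf hinj] with t ht
  have hm : ∀ A : NF ℕ+, Measurable (fun x => (corr hn f t A ↔ x ∈ S)) := by
    intro A
    have h1 : Measurable (fun x => x ∈ S) := measurableSet_setOfPred.1 hS
    have h2 : Measurable (fun _ : X => corr hn f t A) := measurable_const
    exact h2.iff h1
  have hlaw : (iid μ).map (fun θ (A : NF ℕ+) => (corr hn f t A ↔ θ A ∈ S)) =
      Measure.infinitePi (fun _ : NF ℕ+ => μ.map (fun x => x ∈ S)) := by
    unfold iid
    have := Measure.infinitePi_map_pi (fun _ : NF ℕ+ => μ)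
      (f := fun A x => (corr hn f t A ↔ x ∈ S)) hm
    rw [this]
    congr 1
    funext A
    exact coin_flip μ S hS hhalf _
  have hm' : Measurable (fun (θ : NF ℕ+ → X) (A : NF ℕ+) => (corr hn f t A ↔ θ A ∈ S)) :=
    measurable_pi_lambda _ fun A => (hm A).comp (measurable_pi_apply A)
  rw [← hlaw, Measure.map_map (measurable_coinArray hn) hm']
  congr 1
  funext θ
  have hsing : ∀ v : ℕ+, mix B θ t (single v) = t (single v) := by
    intro v
    simp [mix, lev_single, h1B]
  have ht' : Injective (fun v : ℕ+ => f (mix B θ t (single v))) := by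
    simpa only [hsing] using ht
  rw [array_eq_coinArray hn f hf S hS _ ht']
  have hcorr : ∀ A, corr hn f (mix B θ t) A ↔ corr hn f t A := by
    intro A
    unfold corr
    simp only [hsing]
  funext a
  obtain ⟨m, ⟨hm⟩, α⟩ := a
  subst hm
  refine propext ?_
  simp only [comp_apply, coinArray]
  refine and_congr_right fun hα => ?_
  have hlev : lev (push α (full hn)) ∉ B := by
    rw [lev_push hα]
    have : lev (full hn) = ⟨m, hn⟩ := PNat.eq (lev_full hn)
    rw [this]; exact hnB
  have hmix : mix B θ t (push α (full hn)) = θ (push α (full hn)) := by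
    simp [mix, hlev]
  rw [hmix, hcorr]

theorem orient_not_compatible {n : ℕ} (hn : 2 ≤ n) (f : X → ℝ) (hf : Measurable f)
    (hinj : Injective f) (S : Set X) (hS : MeasurableSet S)
    (μ : Measure X) [IsProbabilityMeasure μ] [NullSingletonClass μ]
    (B : Set ℕ+) (hB : ∀ m : ℕ+, (m : ℕ) < n → m ∈ B) (T : (oneRel n).Theory)
    (φ : Measure (Str (oneRel n)))
    (hφ : (orient n (by omega) f hf S hS).Represents μ φ) :
    ¬ Compatible μ T Bᶜ φ := by
  rintro ⟨N', -, hrep, hcomp⟩
  have hn0 : 0 < n := by omega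
  let α : Fin n → ℕ+ := fun i => ⟨(i : ℕ) + 1, Nat.succ_pos _⟩
  have hα : Injective α := by
    intro i j hij
    have : ((α i : ℕ+) : ℕ) = ((α j : ℕ+) : ℕ) := by rw [hij]
    simp only [α, PNat.mk_coe, Nat.add_right_cancel_iff] at this
    exact Fin.ext this
  let i0 : Fin n := ⟨0, by omega⟩
  let i1 : Fin n := ⟨1, by omega⟩
  have h01 : i0 ≠ i1 := by simp [i0, i1]
  let σ : Equiv.Perm (Fin n) := Equiv.swap i0 i1
  let D : Set (Str (oneRel n)) := {M | M ⟨n, ⟨rfl⟩, α⟩ ↔ M ⟨n, ⟨rfl⟩, α ∘ σ⟩}
  have hD : MeasurableSet D := by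
    refine measurableSet_setOfPred.2 ?_
    exact (measurable_pi_apply _).iff (measurable_pi_apply _)
  have hprob : IsProbabilityMeasure φ := by
    rw [← hφ]; exact Measure.isProbabilityMeasure_map (Euclidean.measurable_array _).aemeasurable
  -- under N' the event is sure
  have h1 : φ D = 1 := by
    rw [← hrep, Measure.map_apply N'.measurable_array hD]
    have : N'.array ⁻¹' D = univ := by
      refine eq_univ_of_forall fun θ => ?_
      simp only [D, mem_preimage, mem_ofPred_eq, Euclidean.array]
      refine and_congr (iff_of_true hα (hα.comp σ.injective)) ?_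
      refine hcomp n ⟨rfl⟩ _ _ fun A hA => ?_
      have hAf : A = full hn0 := by
        refine eq_full hn0 A ?_
        by_contra hlt
        push Not at hlt
        exact hA (hB _ hlt)
      subst hAf
      rw [push_full_comp]
    rw [this, measure_univ]
  have h0 : φ D = 0 := by
    rw [← hφ, Measure.map_apply (Euclidean.measurable_array _) hD, measure_eq_zero_iff_ae_notMem]
    filter_upwards [ae_injective μ f hf hinj] with t ht
    simp only [D, mem_preimage, mem_ofPred_eq]
    rw [orient_array, orient_array]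
    have e1 : (pos (fun i => f (t (single ((α ∘ σ) i)))) ↔
        ¬ pos (fun i => f (t (single (α i))))) := by
      have hw : Injective (fun i => f (t (single (α i)))) := fun i j hij => hα (ht hij)
      exact pos_swap hw h01
    rw [e1, push_full_comp]
    have := hα.comp σ.injective
    tauto
  rw [h0] at h1
  exact zero_ne_one h1

end Pool.Agent.Lib.MP_1d1228_co
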